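import Pool.Agent.Helper97.QF.Omega3

/-!
# QF: polarisation of quadratic and cubic forms
-/

set_option autoImplicit false

namespace Pool.Agent.Helper97.QF

open MvPolynomial

variable {k : Type*} [Field k] {N : ℕ}

/-- the matrix of a quadratic form -/
noncomputable def polB (Q : MvPolynomial (Fin N) k) : Fin N → Fin N → k := fun a b =>
  (2 : k)⁻¹ * constantCoeff (pderiv b (pderiv a Q))

/-- the tensor of a cubic form -/
noncomputable def polC (F : MvPolynomial (Fin N) k) : Fin N → Fin N → Fin N → k := fun a b c =>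
  (6 : k)⁻¹ * constantCoeff (pderiv c (pderiv b (pderiv a F)))

theorem pderiv_swap (i j : Fin N) (F : MvPolynomial (Fin N) k) :
    pderiv i (pderiv j F) = pderiv j (pderiv i F) := by
  have h : ⁅(pderiv i : Derivation k (MvPolynomial (Fin N) k) (MvPolynomial (Fin N) k)),
      (pderiv j : Derivation k (MvPolynomial (Fin N) k) (MvPolynomial (Fin N) k))⁆ = 0 := by
    apply MvPolynomial.derivation_ext
    intro l
    rw [Derivation.commutator_apply, pderiv_X, pderiv_X, Derivation.zero_apply, Pi.single_apply,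
      Pi.single_apply]
    split_ifs <;> simp
  have h1 : ⁅(pderiv i : Derivation k (MvPolynomial (Fin N) k) (MvPolynomial (Fin N) k)),
      (pderiv j : Derivation k (MvPolynomial (Fin N) k) (MvPolynomial (Fin N) k))⁆ F = 0 := by
    rw [h, Derivation.zero_apply]
  rw [Derivation.commutator_apply] at h1
  exact sub_eq_zero.1 h1

theorem euler {R : Type*} [CommRing R] [Algebra k R] (x : Fin N → R) (n : ℕ)
    (G : MvPolynomial (Fin N) k) (hG : G.IsHomogeneous n) :
    (n : R) * aeval x G = ∑ a, x a * aeval x (pderiv a G) := by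
  have h := congrArg (aeval x) hG.sum_X_mul_pderiv
  rw [map_sum, map_nsmul, nsmul_eq_mul] at h
  rw [← h]
  exact Finset.sum_congr rfl fun a _ => by rw [map_mul, aeval_X]

theorem aeval_const {R : Type*} [CommRing R] [Algebra k R] (x : Fin N → R)
    (G : MvPolynomial (Fin N) k) (hG : G.IsHomogeneous 0) :
    aeval x G = algebraMap k R (constantCoeff G) := by
  have h0 : G.totalDegree = 0 := Nat.le_zero.1 hG.totalDegree_le
  have h1 := totalDegree_eq_zero_iff_eq_C.1 h0
  conv_lhs => rw [h1]
  rw [aeval_C]
  rfl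

/-- linear forms -/
theorem euler1 {R : Type*} [CommRing R] [Algebra k R] (x : Fin N → R)
    (G : MvPolynomial (Fin N) k) (hG : G.IsHomogeneous 1) :
    aeval x G = ∑ b, x b * algebraMap k R (constantCoeff (pderiv b G)) := by
  have h1 := euler x 1 G hG
  rw [Nat.cast_one, one_mul] at h1
  rw [h1]
  exact Finset.sum_congr rfl fun b _ => by rw [aeval_const x _ (hG.pderiv (i := b))]

/-- quadratic forms -/
theorem euler2 {R : Type*} [CommRing R] [Algebra k R] (x : Fin N → R)
    (G : MvPolynomial (Fin N) k) (hG : G.IsHomogeneous 2) :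
    (2 : R) * aeval x G =
      ∑ b, ∑ c, x b * x c * algebraMap k R (constantCoeff (pderiv c (pderiv b G))) := by
  have h1 := euler x 2 G hG
  rw [Nat.cast_ofNat] at h1
  rw [h1]
  refine Finset.sum_congr rfl fun b _ => ?_
  rw [euler1 x _ (hG.pderiv (i := b)), Finset.mul_sum]
  exact Finset.sum_congr rfl fun c _ => by ring

/-- cubic forms -/
theorem euler3 {R : Type*} [CommRing R] [Algebra k R] (x : Fin N → R)
    (G : MvPolynomial (Fin N) k) (hG : G.IsHomogeneous 3) :
    (6 : R) * aeval x G = ∑ b, ∑ c, ∑ d, x b * x c * x d *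
      algebraMap k R (constantCoeff (pderiv d (pderiv c (pderiv b G)))) := by
  have h1 := euler x 3 G hG
  have e : (6 : R) * aeval x G = 2 * ((3 : ℕ) * aeval x G) := by push_cast; ring
  rw [e, h1, Finset.mul_sum]
  refine Finset.sum_congr rfl fun b _ => ?_
  have e2 : 2 * (x b * aeval x (pderiv b G)) = x b * (2 * aeval x (pderiv b G)) := by ring
  rw [e2, euler2 x _ (hG.pderiv (i := b)), Finset.mul_sum]
  refine Finset.sum_congr rfl fun c _ => ?_
  rw [Finset.mul_sum]
  exact Finset.sum_congr rfl fun d _ => by ring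

theorem symB_polB (Q : MvPolynomial (Fin N) k) : SymB (polB Q) := by
  intro a b
  rw [polB, polB, pderiv_swap]

theorem symT_polC (F : MvPolynomial (Fin N) k) : SymT (polC F) := by
  refine ⟨fun a b c => ?_, fun a b c => ?_⟩
  · rw [polC, polC, pderiv_swap b a]
  · rw [polC, polC, pderiv_swap c b]

theorem inv_mul_map {R : Type*} [CommRing R] [Algebra k R] {c : k} (hc : c ≠ 0) :
    algebraMap k R c⁻¹ * algebraMap k R c = 1 := by
  rw [← map_mul, inv_mul_cancel₀ hc, map_one]

theorem aeval_polB (h2 : (2 : k) ≠ 0) (Q : MvPolynomial (Fin N) k) (hQ : Q.IsHomogeneous 2)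
    {R : Type*} [CommRing R] [Algebra k R] (x : Fin N → R) :
    aeval x Q = bil (polB Q) x x := by
  have h := euler2 x Q hQ
  have hi := inv_mul_map (R := R) h2
  rw [map_ofNat] at hi
  have e : bil (polB Q) x x = algebraMap k R (2 : k)⁻¹ * (2 * aeval x Q) := by
    rw [h, bil, Finset.mul_sum]
    refine Finset.sum_congr rfl fun a _ => ?_
    rw [Finset.mul_sum]
    refine Finset.sum_congr rfl fun b _ => ?_
    rw [polB, map_mul]
    ring
  rw [e]
  linear_combination -(aeval x Q) * hi

theorem six_ne (h2 : (2 : k) ≠ 0) (h3 : (3 : k) ≠ 0) : (6 : k) ≠ 0 := by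
  have : (6 : k) = 2 * 3 := by norm_num
  rw [this]
  exact mul_ne_zero h2 h3

theorem aeval_polC (h2 : (2 : k) ≠ 0) (h3 : (3 : k) ≠ 0) (F : MvPolynomial (Fin N) k)
    (hF : F.IsHomogeneous 3) {R : Type*} [CommRing R] [Algebra k R] (x : Fin N → R) :
    aeval x F = tri (polC F) x x x := by
  have h := euler3 x F hF
  have hi := inv_mul_map (R := R) (six_ne h2 h3)
  rw [map_ofNat] at hi
  have e : tri (polC F) x x x = algebraMap k R (6 : k)⁻¹ * (6 * aeval x F) := by
    rw [h, tri, Finset.mul_sum]
    refine Finset.sum_congr rfl fun a _ => ?_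
    rw [Finset.mul_sum]
    refine Finset.sum_congr rfl fun b _ => ?_
    rw [Finset.mul_sum]
    refine Finset.sum_congr rfl fun c _ => ?_
    rw [polC, map_mul]
    ring
  rw [e]
  linear_combination -(aeval x F) * hi

theorem eval_pderiv_polB (h2 : (2 : k) ≠ 0) (Q : MvPolynomial (Fin N) k)
    (hQ : Q.IsHomogeneous 2) (x : Fin N → k) (a : Fin N) :
    eval x (pderiv a Q) = 2 * bil (polB Q) x (Pi.single a 1) := by
  have h := euler1 x _ (hQ.pderiv (i := a))
  have e4 : aeval x (pderiv a Q) = eval x (pderiv a Q) := congrFun (aeval_eq_eval x) _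
  rw [e4] at h
  have e5 : bil (polB Q) (Pi.single a 1) x = ∑ b, polB Q a b * x b := by
    rw [bil, Finset.sum_eq_single a]
    · refine Finset.sum_congr rfl fun b _ => ?_
      rw [Pi.single_eq_same]
      simp only [Algebra.algebraMap_self, RingHom.id_apply, mul_one]
    · intro b _ hb
      simp [Pi.single_eq_of_ne hb]
    · intro h
      exact absurd (Finset.mem_univ a) h
  rw [h, bil_symm (symB_polB Q), e5, Finset.mul_sum]
  refine Finset.sum_congr rfl fun b _ => ?_
  rw [polB]
  simp only [Algebra.algebraMap_self, RingHom.id_apply]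
  field_simp

theorem eval_pderiv_polC (h2 : (2 : k) ≠ 0) (h3 : (3 : k) ≠ 0) (F : MvPolynomial (Fin N) k)
    (hF : F.IsHomogeneous 3) (x : Fin N → k) (a : Fin N) :
    eval x (pderiv a F) = 3 * tri (polC F) x x (Pi.single a 1) := by
  have h := euler2 x _ (hF.pderiv (i := a))
  have e4 : aeval x (pderiv a F) = eval x (pderiv a F) := congrFun (aeval_eq_eval x) _
  rw [e4] at h
  have e2 : 2 * eval x (pderiv a F) = 6 * tri (polC F) (Pi.single a 1) x x := by
    have e5 : tri (polC F) (Pi.single a 1) x x = ∑ b, ∑ c, polC F a b c * x b * x c := by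
      rw [tri, Finset.sum_eq_single a]
      · refine Finset.sum_congr rfl fun b _ => Finset.sum_congr rfl fun c _ => ?_
        rw [Pi.single_eq_same]
        simp only [Algebra.algebraMap_self, RingHom.id_apply, mul_one]
      · intro b _ hb
        simp [Pi.single_eq_of_ne hb]
      · intro h
        exact absurd (Finset.mem_univ a) h
    rw [h, e5, Finset.mul_sum]
    refine Finset.sum_congr rfl fun b _ => ?_
    rw [Finset.mul_sum]
    refine Finset.sum_congr rfl fun c _ => ?_
    rw [polC]
    have h6 := six_ne h2 h3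
    simp only [Algebra.algebraMap_self, RingHom.id_apply]
    field_simp
  rw [tri_s13 (symT_polC F)]
  apply mul_left_cancel₀ h2
  rw [e2]
  ring

/-- smoothness in terms of the tensors -/
theorem smo_pol (h2 : (2 : k) ≠ 0) (h3 : (3 : k) ≠ 0) (Q F : MvPolynomial (Fin N) k)
    (hQ : Q.IsHomogeneous 2) (hF : F.IsHomogeneous 3)
    (hS : ∀ x : Fin N → k, x ≠ 0 → eval x Q = 0 → eval x F = 0 →
      LinearIndependent k ![fun i => eval x (pderiv i Q), fun i => eval x (pderiv i F)]) :
    Smo (polB Q) (polC F) := by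
  intro x hx hxQ hxF α β hv
  have hQ0 : eval x Q = 0 := by
    rw [← hxQ, ← aeval_polB h2 Q hQ]
    exact (congrFun (aeval_eq_eval x) _).symm
  have hF0 : eval x F = 0 := by
    rw [← hxF, ← aeval_polC h2 h3 F hF]
    exact (congrFun (aeval_eq_eval x) _).symm
  have h := LinearIndependent.pair_iff.1 (hS x hx hQ0 hF0) (3 * α) (2 * β) (by
    funext i
    simp only [Pi.add_apply, Pi.smul_apply, smul_eq_mul, Pi.zero_apply]
    rw [eval_pderiv_polB h2 Q hQ, eval_pderiv_polC h2 h3 F hF]
    linear_combination 6 * hv (Pi.single i 1))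
  exact ⟨(mul_eq_zero.1 h.1).resolve_left h3, (mul_eq_zero.1 h.2).resolve_left h2⟩

/-- a line in terms of the tensors -/
theorem line_pol (h2 : (2 : k) ≠ 0) (h3 : (3 : k) ≠ 0) (Q F : MvPolynomial (Fin N) k)
    (hQ : Q.IsHomogeneous 2) (hF : F.IsHomogeneous 3) (a b : Fin N → k)
    (h : ∀ s t : k, eval (s • a + t • b) Q = 0 ∧ eval (s • a + t • b) F = 0) :
    Line (polB Q) (polC F) a b := by
  have hB := symB_polB Q
  have hT := symT_polC F
  have hq : ∀ s t : k, s ^ 2 * bil (polB Q) a a + 2 * s * t * bil (polB Q) a b +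
      t ^ 2 * bil (polB Q) b b = 0 := by
    intro s t
    have e := aeval_polB h2 Q hQ (s • a + t • b)
    rw [show aeval (s • a + t • b) Q = eval (s • a + t • b) Q from
      congrFun (aeval_eq_eval _) _, (h s t).1] at e
    simp only [bil_add1, bil_add2, bil_smul1, bil_smul2, bil_symm hB b a] at e
    linear_combination -e
  have e1 : tri (polC F) a b a = tri (polC F) a a b := tri_s23 hT _ _ _
  have e2 : tri (polC F) b a a = tri (polC F) a a b := by rw [tri_s12 hT]; exact e1
  have e3 : tri (polC F) b a b = tri (polC F) a b b := tri_s12 hT _ _ _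
  have e4 : tri (polC F) b b a = tri (polC F) a b b := by rw [tri_s23 hT]; exact e3
  have hc : ∀ s t : k, s ^ 3 * tri (polC F) a a a + 3 * s ^ 2 * t * tri (polC F) a a b +
      3 * s * t ^ 2 * tri (polC F) a b b + t ^ 3 * tri (polC F) b b b = 0 := by
    intro s t
    have e := aeval_polC h2 h3 F hF (s • a + t • b)
    rw [show aeval (s • a + t • b) F = eval (s • a + t • b) F from
      congrFun (aeval_eq_eval _) _, (h s t).2] at e
    simp only [tri_add1, tri_add2, tri_add3, tri_smul1, tri_smul2, tri_smul3, e1, e2, e3, e4] at e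
    linear_combination -e
  have q10 := hq 1 0
  have q01 := hq 0 1
  have q11 := hq 1 1
  have c10 := hc 1 0
  have c01 := hc 0 1
  have c11 := hc 1 1
  have c1m := hc 1 (-1)
  have b0 : bil (polB Q) a a = 0 := by linear_combination q10
  have b2 : bil (polB Q) b b = 0 := by linear_combination q01
  have b1 : 2 * bil (polB Q) a b = 0 := by linear_combination q11 - b0 - b2
  have c0 : tri (polC F) a a a = 0 := by linear_combination c10
  have c3 : tri (polC F) b b b = 0 := by linear_combination c01
  have c2 : 6 * tri (polC F) a b b = 0 := by linear_combination c11 + c1m - 2 * c0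
  have c1 : 6 * tri (polC F) a a b = 0 := by linear_combination c11 - c1m - 2 * c3
  have h6 := six_ne h2 h3
  exact ⟨b0, (mul_eq_zero.1 b1).resolve_left h2, b2, c0, (mul_eq_zero.1 c1).resolve_left h6,
    (mul_eq_zero.1 c2).resolve_left h6, c3⟩

theorem ind_of (a b : Fin N → k) (h : LinearIndependent k ![a, b]) : Ind a b := by
  rw [LinearIndependent.pair_iff] at h
  by_contra hcon
  unfold Ind at hcon
  push Not at hcon
  have ha : a ≠ 0 := by
    intro ha
    have := h 1 0 (by rw [ha]; simp)
    exact one_ne_zero this.1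
  obtain ⟨i, hi⟩ := Function.ne_iff.1 ha
  have := h (b i) (-(a i)) (by
    funext j
    simp only [Pi.add_apply, Pi.smul_apply, smul_eq_mul, Pi.zero_apply]
    linear_combination -(hcon i j))
  exact hi (neg_eq_zero.1 this.2)

/-- transfer of a rational surface along an isomorphism of fields -/
theorem transfer_rat {B : Fin N → Fin N → k} {T : Fin N → Fin N → Fin N → k} {K' : Type*}
    [Field K'] [Algebra k K'] (e : Pool.Agent.Helper72.QT.KK k ≃ₐ[k] K') (h : ContRat B T) :
    ∃ y : Fin N → K', bil B y y = 0 ∧ tri T y y y = 0 ∧ ∃ i, y i ≠ 0 ∧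
      IntermediateField.adjoin k (Set.range fun j => y j / y i) = ⊤ := by
  obtain ⟨y, hy1, hy2, i, hi, hgen⟩ := h
  refine ⟨fun a => e (y a), ?_, ?_, i, ?_, ?_⟩
  · have := bil_map B (e : Pool.Agent.Helper72.QT.KK k →ₐ[k] K') y y
    rw [hy1, map_zero] at this
    exact this
  · have := tri_map T (e : Pool.Agent.Helper72.QT.KK k →ₐ[k] K') y y y
    rw [hy2, map_zero] at this
    exact this
  · exact (map_ne_zero e).2 hi
  · have h1 := congrArg (IntermediateField.map (e : Pool.Agent.Helper72.QT.KK k →ₐ[k] K')) hgen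
    rw [IntermediateField.adjoin_map] at h1
    have h2 : (⇑(e : Pool.Agent.Helper72.QT.KK k →ₐ[k] K') '' Set.range fun j => y j / y i) =
        Set.range fun j => e (y j) / e (y i) := by
      rw [← Set.range_comp]
      congr 1
      funext j
      exact map_div₀ e _ _
    rw [h2] at h1
    rw [h1]
    apply top_unique
    intro z _
    exact ⟨e.symm z, IntermediateField.mem_top, e.apply_symm_apply z⟩

end Pool.Agent.Helper97.QF
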