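import Pool.Agent.Helper97.QF.Types

/-!
# QF: assembly of the types
-/

set_option autoImplicit false

namespace Pool.Agent.Helper97.QF

open MvPolynomial

universe u

variable {k : Type u} [Field k] {n r : ℕ}

/-- all complete intersections with `∑ (d_l - 1) ≤ 3`, given the type (2,2,2) -/
theorem all_of [IsAlgClosed k] (h2 : (2 : k) ≠ 0)
    (h222 : ∀ (n : ℕ), 6 ≤ n → ∀ f : Fin 3 → MvPolynomial (Fin (n + 1)) k,
      (∀ l, (f l).IsHomogeneous 2) → SmoothCI f → RatSurf f)
    (f : Fin r → MvPolynomial (Fin (n + 1)) k) (d : Fin r → ℕ) (hd : ∀ l, 2 ≤ d l)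
    (hf : ∀ l, (f l).IsHomogeneous (d l)) (hdim : r + 3 ≤ n) (hco : ∑ l, (d l - 1) ≤ 3)
    (h3 : (3 : k) ≠ 0 ∨ ∀ l, d l = 2) (hS : SmoothCI f) : RatSurf f := by
  have h3' : ∀ l, d l ≠ 2 → (3 : k) ≠ 0 := by
    intro l hl
    rcases h3 with h | h
    · exact h
    · exact absurd (h l) hl
  have hr : r ≤ 3 := by
    have h1 : ∑ l : Fin r, 1 ≤ ∑ l, (d l - 1) := Finset.sum_le_sum fun l _ => by
      have := hd l
      omega
    have h4 : ∑ l : Fin r, 1 = r := by simp
    omega
  have hcase : r = 0 ∨ r = 1 ∨ r = 2 ∨ r = 3 := by omega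
  rcases hcase with rfl | rfl | rfl | rfl
  · exact type_0 (by omega) f
  · rw [Fin.sum_univ_one] at hco
    have hd0 := hd 0
    have : d 0 = 2 ∨ d 0 = 3 ∨ d 0 = 4 := by omega
    have hf0 := hf 0
    rcases this with h | h | h
    · rw [h] at hf0
      exact type_2 h2 (by omega) f hf0 hS
    · rw [h] at hf0
      exact type_3 h2 (h3' 0 (by omega)) (by omega) f hf0 hS
    · rw [h] at hf0
      exact type_4 h2 (h3' 0 (by omega)) (by omega) f hf0 hS
  · rw [Fin.sum_univ_two] at hco
    have hd0 := hd 0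
    have hd1 := hd 1
    have : (d 0 = 2 ∧ d 1 = 2) ∨ (d 0 = 2 ∧ d 1 = 3) ∨ (d 0 = 3 ∧ d 1 = 2) := by omega
    have hf0 := hf 0
    have hf1 := hf 1
    rcases this with ⟨h, h'⟩ | ⟨h, h'⟩ | ⟨h, h'⟩
    · rw [h] at hf0
      rw [h'] at hf1
      refine type_22 h2 (by omega) f (fun l => ?_) hS
      fin_cases l
      · exact hf0
      · exact hf1
    · rw [h] at hf0
      rw [h'] at hf1
      exact type_23 h2 (h3' 1 (by omega)) (by omega) f hf0 hf1 hS
    · rw [h] at hf0
      rw [h'] at hf1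
      refine RatSurf.perm (Equiv.swap 0 1) (type_23 h2 (h3' 0 (by omega)) (by omega) _ ?_ ?_
        (hS.perm (Equiv.swap 0 1)))
      · rw [Equiv.swap_apply_left]
        exact hf1
      · rw [Equiv.swap_apply_right]
        exact hf0
  · rw [Fin.sum_univ_three] at hco
    have hd0 := hd 0
    have hd1 := hd 1
    have hd2 := hd 2
    refine h222 n (by omega) f (fun l => ?_) hS
    have hl := hf l
    have : d l = 2 := by
      fin_cases l
      · show d 0 = 2
        omega
      · show d 1 = 2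
        omega
      · show d 2 = 2
        omega
    rwa [this] at hl

end Pool.Agent.Helper97.QF
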