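import Mathlib

/-!
# QF: smooth complete intersections and rational surfaces, definitions
-/

set_option autoImplicit false

namespace Pool.Agent.Helper97.QF

open MvPolynomial

variable {k : Type*} [Field k] {n r : ℕ}

/-- the common zeros in projective space form a smooth complete intersection (Jacobian criterion) -/
def SmoothCI (f : Fin r → MvPolynomial (Fin (n + 1)) k) : Prop :=
  ∀ x : Fin (n + 1) → k, x ≠ 0 → (∀ l, eval x (f l) = 0) →
    LinearIndependent k (fun l => fun i => eval x (pderiv i (f l)))

/-- the set of common zeros contains a rational surface: some rational map from the plane, given by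
homogeneous coordinates in the function field of the plane, is birational onto its image -/
def RatSurf (f : Fin r → MvPolynomial (Fin (n + 1)) k) : Prop :=
  ∃ y : Fin (n + 1) → FractionRing (MvPolynomial (Fin 2) k), (∀ l, aeval y (f l) = 0) ∧
    ∃ i, y i ≠ 0 ∧ IntermediateField.adjoin k (Set.range fun j => y j / y i) = ⊤

end Pool.Agent.Helper97.QF
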