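import Pool.Agent.Helper72.QT.Ratio

/-!
# Project QF (MP_1a304d_ag): complete intersections of a quadric and a cubic, forms

`B` a symmetric matrix, `T` a symmetric tensor with three indices; `bil B x y` and `tri T x y z` the
bilinear and trilinear forms over any commutative `k`-algebra.
-/

set_option autoImplicit false

namespace Pool.Agent.Helper97.QF

open Polynomial

variable {k : Type*} [Field k] {N : ℕ}

/-- the bilinear form of a matrix, over every `k`-algebra -/
def bil (B : Fin N → Fin N → k) {R : Type*} [CommRing R] [Algebra k R] (x y : Fin N → R) : R :=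
  ∑ a, ∑ b, algebraMap k R (B a b) * x a * y b

/-- the trilinear form of a tensor, over every `k`-algebra -/
def tri (T : Fin N → Fin N → Fin N → k) {R : Type*} [CommRing R] [Algebra k R]
    (x y z : Fin N → R) : R :=
  ∑ a, ∑ b, ∑ c, algebraMap k R (T a b c) * x a * y b * z c

/-- symmetric matrices -/
def SymB (B : Fin N → Fin N → k) : Prop := ∀ a b, B a b = B b a

/-- symmetric tensors -/
structure SymT (T : Fin N → Fin N → Fin N → k) : Prop where
  s12 : ∀ a b c, T a b c = T b a c
  s23 : ∀ a b c, T a b c = T a c b

section rules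

variable (B : Fin N → Fin N → k) (T : Fin N → Fin N → Fin N → k) {R : Type*} [CommRing R]
  [Algebra k R]

theorem bil_add1 (x x' y : Fin N → R) : bil B (x + x') y = bil B x y + bil B x' y := by
  simp only [bil, Pi.add_apply, mul_add, add_mul, Finset.sum_add_distrib]

theorem bil_add2 (x y y' : Fin N → R) : bil B x (y + y') = bil B x y + bil B x y' := by
  simp only [bil, Pi.add_apply, mul_add, Finset.sum_add_distrib]

theorem bil_smul1 (r : R) (x y : Fin N → R) : bil B (r • x) y = r * bil B x y := by
  simp only [bil, Pi.smul_apply, smul_eq_mul, Finset.mul_sum]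
  refine Finset.sum_congr rfl fun a _ => Finset.sum_congr rfl fun b _ => ?_
  ring

theorem bil_smul2 (r : R) (x y : Fin N → R) : bil B x (r • y) = r * bil B x y := by
  simp only [bil, Pi.smul_apply, smul_eq_mul, Finset.mul_sum]
  refine Finset.sum_congr rfl fun a _ => Finset.sum_congr rfl fun b _ => ?_
  ring

theorem bil_neg1 (x y : Fin N → R) : bil B (-x) y = -bil B x y := by
  have := bil_smul1 B (-1) x y
  simpa using this

theorem bil_neg2 (x y : Fin N → R) : bil B x (-y) = -bil B x y := by
  have := bil_smul2 B (-1) x y
  simpa using this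

theorem bil_sub1 (x x' y : Fin N → R) : bil B (x - x') y = bil B x y - bil B x' y := by
  rw [sub_eq_add_neg, bil_add1, bil_neg1, sub_eq_add_neg]

theorem bil_sub2 (x y y' : Fin N → R) : bil B x (y - y') = bil B x y - bil B x y' := by
  rw [sub_eq_add_neg, bil_add2, bil_neg2, sub_eq_add_neg]

theorem bil_zero1 (y : Fin N → R) : bil B 0 y = 0 := by
  simp [bil]

theorem bil_zero2 (x : Fin N → R) : bil B x 0 = 0 := by
  simp [bil]

theorem tri_add1 (x x' y z : Fin N → R) : tri T (x + x') y z = tri T x y z + tri T x' y z := by
  simp only [tri, Pi.add_apply, mul_add, add_mul, Finset.sum_add_distrib]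

theorem tri_add2 (x y y' z : Fin N → R) : tri T x (y + y') z = tri T x y z + tri T x y' z := by
  simp only [tri, Pi.add_apply, mul_add, add_mul, Finset.sum_add_distrib]

theorem tri_add3 (x y z z' : Fin N → R) : tri T x y (z + z') = tri T x y z + tri T x y z' := by
  simp only [tri, Pi.add_apply, mul_add, Finset.sum_add_distrib]

theorem tri_smul1 (r : R) (x y z : Fin N → R) : tri T (r • x) y z = r * tri T x y z := by
  simp only [tri, Pi.smul_apply, smul_eq_mul, Finset.mul_sum]
  refine Finset.sum_congr rfl fun a _ => Finset.sum_congr rfl fun b _ =>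
    Finset.sum_congr rfl fun c _ => ?_
  ring

theorem tri_smul2 (r : R) (x y z : Fin N → R) : tri T x (r • y) z = r * tri T x y z := by
  simp only [tri, Pi.smul_apply, smul_eq_mul, Finset.mul_sum]
  refine Finset.sum_congr rfl fun a _ => Finset.sum_congr rfl fun b _ =>
    Finset.sum_congr rfl fun c _ => ?_
  ring

theorem tri_smul3 (r : R) (x y z : Fin N → R) : tri T x y (r • z) = r * tri T x y z := by
  simp only [tri, Pi.smul_apply, smul_eq_mul, Finset.mul_sum]
  refine Finset.sum_congr rfl fun a _ => Finset.sum_congr rfl fun b _ =>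
    Finset.sum_congr rfl fun c _ => ?_
  ring

theorem tri_neg1 (x y z : Fin N → R) : tri T (-x) y z = -tri T x y z := by
  have := tri_smul1 T (-1) x y z
  simpa using this

theorem tri_neg2 (x y z : Fin N → R) : tri T x (-y) z = -tri T x y z := by
  have := tri_smul2 T (-1) x y z
  simpa using this

theorem tri_neg3 (x y z : Fin N → R) : tri T x y (-z) = -tri T x y z := by
  have := tri_smul3 T (-1) x y z
  simpa using this

theorem tri_sub1 (x x' y z : Fin N → R) : tri T (x - x') y z = tri T x y z - tri T x' y z := by
  rw [sub_eq_add_neg, tri_add1, tri_neg1, sub_eq_add_neg]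

theorem tri_sub2 (x y y' z : Fin N → R) : tri T x (y - y') z = tri T x y z - tri T x y' z := by
  rw [sub_eq_add_neg, tri_add2, tri_neg2, sub_eq_add_neg]

theorem tri_sub3 (x y z z' : Fin N → R) : tri T x y (z - z') = tri T x y z - tri T x y z' := by
  rw [sub_eq_add_neg, tri_add3, tri_neg3, sub_eq_add_neg]

variable {B T}

theorem bil_symm (hB : SymB B) (x y : Fin N → R) : bil B x y = bil B y x := by
  unfold bil
  rw [Finset.sum_comm]
  refine Finset.sum_congr rfl fun a _ => Finset.sum_congr rfl fun b _ => ?_
  rw [hB]
  ring

theorem tri_s12 (hT : SymT T) (x y z : Fin N → R) : tri T x y z = tri T y x z := by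
  unfold tri
  rw [Finset.sum_comm]
  refine Finset.sum_congr rfl fun a _ => Finset.sum_congr rfl fun b _ =>
    Finset.sum_congr rfl fun c _ => ?_
  rw [hT.s12]
  ring

theorem tri_s23 (hT : SymT T) (x y z : Fin N → R) : tri T x y z = tri T x z y := by
  unfold tri
  refine Finset.sum_congr rfl fun a _ => ?_
  rw [Finset.sum_comm]
  refine Finset.sum_congr rfl fun b _ => Finset.sum_congr rfl fun c _ => ?_
  rw [hT.s23]
  ring

theorem tri_s13 (hT : SymT T) (x y z : Fin N → R) : tri T x y z = tri T z y x := by
  rw [tri_s12 hT, tri_s23 hT, tri_s12 hT]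

/-- compatibility with algebra homomorphisms -/
theorem bil_map (B : Fin N → Fin N → k) {S : Type*} [CommRing S] [Algebra k S] (g : R →ₐ[k] S)
    (x y : Fin N → R) : bil B (fun i => g (x i)) (fun i => g (y i)) = g (bil B x y) := by
  simp only [bil, map_sum, map_mul, AlgHom.commutes]

theorem tri_map (T : Fin N → Fin N → Fin N → k) {S : Type*} [CommRing S] [Algebra k S]
    (g : R →ₐ[k] S) (x y z : Fin N → R) :
    tri T (fun i => g (x i)) (fun i => g (y i)) (fun i => g (z i)) = g (tri T x y z) := by
  simp only [tri, map_sum, map_mul, AlgHom.commutes]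

end rules

/-- a vector with coordinates in `k` over the algebra `R` -/
def cst (R : Type*) [CommRing R] [Algebra k R] (a : Fin N → k) : Fin N → R :=
  fun i => algebraMap k R (a i)

section cst

variable {R S : Type*} [CommRing R] [Algebra k R] [CommRing S] [Algebra k S]

theorem cst_self (a : Fin N → k) : cst k a = a := rfl

theorem cst_map (g : R →ₐ[k] S) (a : Fin N → k) : (fun i => g (cst R a i)) = cst S a := by
  funext i
  exact g.commutes _

theorem bil_cst (B : Fin N → Fin N → k) (x y : Fin N → k) :
    bil B (cst R x) (cst R y) = algebraMap k R (bil B x y) := by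
  simp only [bil, cst, map_sum, map_mul, Algebra.algebraMap_self, RingHom.id_apply]

theorem tri_cst (T : Fin N → Fin N → Fin N → k) (x y z : Fin N → k) :
    tri T (cst R x) (cst R y) (cst R z) = algebraMap k R (tri T x y z) := by
  simp only [tri, cst, map_sum, map_mul, Algebra.algebraMap_self, RingHom.id_apply]

theorem cst_add (a b : Fin N → k) : cst R (a + b) = cst R a + cst R b := by
  funext i
  simp [cst]

theorem cst_smul (c : k) (a : Fin N → k) : cst R (c • a) = algebraMap k R c • cst R a := by
  funext i
  simp [cst]

end cst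

/-- the line through `a` and `b` lies on the quadric and on the cubic -/
structure Line (B : Fin N → Fin N → k) (T : Fin N → Fin N → Fin N → k) (a b : Fin N → k) :
    Prop where
  b0 : bil B a a = 0
  b1 : bil B a b = 0
  b2 : bil B b b = 0
  c0 : tri T a a a = 0
  c1 : tri T a a b = 0
  c2 : tri T a b b = 0
  c3 : tri T b b b = 0

/-- the intersection of the quadric and the cubic is a smooth complete intersection -/
def Smo (B : Fin N → Fin N → k) (T : Fin N → Fin N → Fin N → k) : Prop :=
  ∀ x : Fin N → k, x ≠ 0 → bil B x x = 0 → tri T x x x = 0 →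
    ∀ α β : k, (∀ v, α * bil B x v + β * tri T x x v = 0) → α = 0 ∧ β = 0

/-- the intersection of the quadric and the cubic contains a rational surface -/
def ContRat (B : Fin N → Fin N → k) (T : Fin N → Fin N → Fin N → k) : Prop :=
  ∃ y : Fin N → Pool.Agent.Helper72.QT.KK k, bil B y y = 0 ∧ tri T y y y = 0 ∧ ∃ i, y i ≠ 0 ∧
    IntermediateField.adjoin k (Set.range fun j => y j / y i) = ⊤

end Pool.Agent.Helper97.QF
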