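import Pool.Agent.Helper97.QF.Pol
import Pool.Agent.Helper97.QF.CI

/-!
# QF: the surfaces which are images of a plane of directions

`y = ... + c (v0 + s v1 + t v2)` with `c ≠ 0`: the quotients of the coordinates generate the function field of the plane.
-/

set_option autoImplicit false

namespace Pool.Agent.Helper97.QF

open MvPolynomial

variable {k : Type*} [Field k] {N : ℕ}

/-- the polynomial ring in two variables -/
abbrev A2 (k : Type*) [Field k] : Type _ := MvPolynomial (Fin 2) k

/-- the function field of the plane -/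
abbrev K2 (k : Type*) [Field k] : Type _ := FractionRing (MvPolynomial (Fin 2) k)

/-- the first variable -/
noncomputable def s0 (k : Type*) [Field k] : K2 k := algebraMap (A2 k) (K2 k) (X 0)

/-- the second variable -/
noncomputable def s1 (k : Type*) [Field k] : K2 k := algebraMap (A2 k) (K2 k) (X 1)

theorem gen_top2 (L : IntermediateField k (K2 k)) (h0 : s0 k ∈ L) (h1 : s1 k ∈ L) : L = ⊤ := by
  have hp : ∀ p : A2 k, algebraMap (A2 k) (K2 k) p ∈ L := by
    intro p
    induction p using MvPolynomial.induction_on with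
    | C a =>
      have e : algebraMap (A2 k) (K2 k) (C a) = algebraMap k (K2 k) a := by
        rw [IsScalarTower.algebraMap_apply k (A2 k) (K2 k)]
        rfl
      rw [e]
      exact L.algebraMap_mem a
    | add p q hp hq =>
      rw [map_add]
      exact add_mem hp hq
    | mul_X p i hp =>
      rw [map_mul]
      refine mul_mem hp ?_
      fin_cases i
      · exact h0
      · exact h1
  rw [eq_top_iff]
  intro z _
  obtain ⟨p, q, -, rfl⟩ := IsFractionRing.div_surjective (A := A2 k) z
  exact div_mem (hp p) (hp q)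

/-- quotients of linear functionals -/
theorem ratio_mem' {E : Type*} [Field E] [Algebra k E] (y : Fin N → E) (i : Fin N)
    (hi : y i ≠ 0) (a b : Fin N → k) :
    (∑ j, algebraMap k E (a j) * y j) / (∑ j, algebraMap k E (b j) * y j) ∈
      IntermediateField.adjoin k (Set.range fun j => y j / y i) := by
  have h1 : ∀ a : Fin N → k, (∑ j, algebraMap k E (a j) * y j) =
      y i * ∑ j, algebraMap k E (a j) * (y j / y i) := by
    intro a
    rw [Finset.mul_sum]
    refine Finset.sum_congr rfl fun j _ => ?_
    field_simp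
  have h2 : ∀ a : Fin N → k, (∑ j, algebraMap k E (a j) * (y j / y i)) ∈
      IntermediateField.adjoin k (Set.range fun j => y j / y i) := by
    intro a
    refine sum_mem fun j _ => mul_mem (IntermediateField.algebraMap_mem _ _) ?_
    exact IntermediateField.subset_adjoin _ _ ⟨j, rfl⟩
  rw [h1 a, h1 b, mul_div_mul_left _ _ hi]
  exact div_mem (h2 a) (h2 b)

/-- dual functionals -/
theorem exists_dual' {r : ℕ} (u : Fin r → Fin N → k) (hu : LinearIndependent k u) :
    ∃ a : Fin r → Fin N → k, ∀ (E : Type _) [CommRing E] [Algebra k E] (c : Fin r → E)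
      (p : Fin r), ∑ j, algebraMap k E (a p j) * (∑ q, c q * algebraMap k E (u q j)) = c p := by
  classical
  have hinj : LinearMap.ker (Fintype.linearCombination k u) = ⊥ :=
    LinearMap.ker_eq_bot.2 (linearIndependent_iff_injective_fintypeLinearCombination.1 hu)
  obtain ⟨g, hg⟩ := LinearMap.exists_leftInverse_of_injective _ hinj
  refine ⟨fun p j => g (Pi.single j 1) p, fun E _ _ c p => ?_⟩
  have h1 : ∀ q : Fin r, (∑ j, g (Pi.single j 1) p * u q j) = if p = q then 1 else 0 := by
    intro q
    have e1 : g (u q) = Pi.single q 1 := by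
      have e2 := LinearMap.congr_fun hg (Pi.single q 1)
      rw [LinearMap.comp_apply, LinearMap.id_apply, Fintype.linearCombination_apply_single,
        one_smul] at e2
      exact e2
    have e3 : u q = ∑ j, u q j • (Pi.single j (1 : k) : Fin N → k) := by
      funext i
      rw [Finset.sum_apply]
      simp [Pi.single_apply]
    have e4 : g (u q) p = ∑ j, u q j * g (Pi.single j 1) p := by
      conv_lhs => rw [e3]
      rw [map_sum, Finset.sum_apply]
      refine Finset.sum_congr rfl fun j _ => ?_
      rw [map_smul, Pi.smul_apply, smul_eq_mul]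
    rw [e1, Pi.single_apply] at e4
    rw [e4]
    exact Finset.sum_congr rfl fun j _ => mul_comm _ _
  calc ∑ j, algebraMap k E (g (Pi.single j 1) p) * (∑ q, c q * algebraMap k E (u q j))
      = ∑ j, ∑ q, c q * algebraMap k E (g (Pi.single j 1) p * u q j) := by
        refine Finset.sum_congr rfl fun j _ => ?_
        rw [Finset.mul_sum]
        refine Finset.sum_congr rfl fun q _ => ?_
        rw [map_mul]
        ring
    _ = ∑ q, c q * algebraMap k E (∑ j, g (Pi.single j 1) p * u q j) := by
        rw [Finset.sum_comm]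
        refine Finset.sum_congr rfl fun q _ => ?_
        rw [map_sum, Finset.mul_sum]
    _ = ∑ q, c q * algebraMap k E (if p = q then 1 else 0) := by
        refine Finset.sum_congr rfl fun q _ => ?_
        rw [h1 q]
    _ = c p := by
        rw [Finset.sum_eq_single p]
        · rw [if_pos rfl, map_one, mul_one]
        · intro q _ hq
          rw [if_neg (Ne.symm hq), map_zero, mul_zero]
        · intro hp
          exact absurd (Finset.mem_univ p) hp

/-- a combination of independent vectors with three coefficients `c`, `c s`, `c t` -/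
theorem rat_of {m : ℕ} (u : Fin m → Fin N → k) (hu : LinearIndependent k u) (c : Fin m → K2 k)
    (p0 p1 p2 : Fin m) (hc : c p0 ≠ 0) (h1 : c p1 = c p0 * s0 k) (h2 : c p2 = c p0 * s1 k)
    (y : Fin N → K2 k) (hy : y = ∑ q, c q • cst (K2 k) (u q)) :
    ∃ i, y i ≠ 0 ∧ IntermediateField.adjoin k (Set.range fun j => y j / y i) = ⊤ := by
  obtain ⟨a, ha⟩ := exists_dual' u hu
  have hval : ∀ p, ∑ j, algebraMap k (K2 k) (a p j) * y j = c p := by
    intro p
    rw [← ha (K2 k) c p]
    refine Finset.sum_congr rfl fun j _ => ?_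
    rw [hy, Finset.sum_apply]
    rfl
  obtain ⟨i, hi⟩ : ∃ i, y i ≠ 0 := by
    by_contra hcon
    push Not at hcon
    apply hc
    rw [← hval p0]
    exact Finset.sum_eq_zero fun j _ => by rw [hcon j, mul_zero]
  refine ⟨i, hi, gen_top2 _ ?_ ?_⟩
  · have h := ratio_mem' y i hi (a p1) (a p0)
    rw [hval, hval, h1, mul_div_cancel_left₀ _ hc] at h
    exact h
  · have h := ratio_mem' y i hi (a p2) (a p0)
    rw [hval, hval, h2, mul_div_cancel_left₀ _ hc] at h
    exact h

/-- the vector `v0 + s v1 + t v2` over the polynomial ring -/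
noncomputable def va (v0 v1 v2 : Fin N → k) : Fin N → A2 k :=
  cst (A2 k) v0 + (X 0 : A2 k) • cst (A2 k) v1 + (X 1 : A2 k) • cst (A2 k) v2

/-- the vector `v0 + s v1 + t v2` over the function field -/
noncomputable def vk (v0 v1 v2 : Fin N → k) : Fin N → K2 k :=
  cst (K2 k) v0 + s0 k • cst (K2 k) v1 + s1 k • cst (K2 k) v2

/-- the inclusion -/
noncomputable def inc (k : Type*) [Field k] : A2 k →ₐ[k] K2 k :=
  IsScalarTower.toAlgHom k (A2 k) (K2 k)

/-- the value at the origin -/
noncomputable def ev0 (k : Type*) [Field k] : A2 k →ₐ[k] k := aeval (0 : Fin 2 → k)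

theorem inc_va (v0 v1 v2 : Fin N → k) : (fun i => inc k (va v0 v1 v2 i)) = vk v0 v1 v2 := by
  funext i
  simp only [va, vk, cst, Pi.add_apply, Pi.smul_apply, smul_eq_mul, map_add, map_mul,
    AlgHom.commutes]
  rfl

theorem ev0_va (v0 v1 v2 : Fin N → k) : (fun i => ev0 k (va v0 v1 v2 i)) = v0 := by
  funext i
  simp only [va, cst, Pi.add_apply, Pi.smul_apply, smul_eq_mul, map_add, map_mul,
    AlgHom.commutes]
  simp [ev0]

theorem inc_ne_zero {z : A2 k} (h : ev0 k z ≠ 0) : inc k z ≠ 0 := by
  intro h0
  apply h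
  have : z = 0 := by
    apply IsFractionRing.injective (A2 k) (K2 k)
    rw [map_zero]
    exact h0
  rw [this, map_zero]

theorem bil_vk_ne (B : Fin N → Fin N → k) (x v0 v1 v2 : Fin N → k) (h : bil B x v0 ≠ 0) :
    bil B (cst (K2 k) x) (vk v0 v1 v2) ≠ 0 := by
  have e1 := bil_map B (inc k) (cst (A2 k) x) (va v0 v1 v2)
  have e2 := bil_map B (ev0 k) (cst (A2 k) x) (va v0 v1 v2)
  rw [inc_va, cst_map] at e1
  rw [ev0_va, cst_map, cst_self] at e2
  rw [e1]
  exact inc_ne_zero (by rw [← e2]; exact h)

theorem tri_vk_ne (T : Fin N → Fin N → Fin N → k) (x v0 v1 v2 : Fin N → k)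
    (h : tri T x v0 v0 ≠ 0) :
    tri T (cst (K2 k) x) (vk v0 v1 v2) (vk v0 v1 v2) ≠ 0 := by
  have e1 := tri_map T (inc k) (cst (A2 k) x) (va v0 v1 v2) (va v0 v1 v2)
  have e2 := tri_map T (ev0 k) (cst (A2 k) x) (va v0 v1 v2) (va v0 v1 v2)
  rw [inc_va, cst_map] at e1
  rw [ev0_va, cst_map, cst_self] at e2
  rw [e1]
  exact inc_ne_zero (by rw [← e2]; exact h)

end Pool.Agent.Helper97.QF
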