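import Pool.Agent.Helper97.QF.Easy

/-!
# QF: rational surfaces on quadrics, cubics and intersections of two quadrics
-/

set_option autoImplicit false

namespace Pool.Agent.Helper97.QF

open MvPolynomial

variable {k : Type*} [Field k] {N : ℕ}

/-- extension of an independent family by a vector outside of a given subspace which contains it -/
theorem snoc_indep {m : ℕ} {u : Fin m → Fin N → k} (hu : LinearIndependent k u) {w : Fin N → k}
    (hw : w ∉ Submodule.span k (Set.range u)) :
    LinearIndependent k (Fin.snoc u w : Fin (m + 1) → Fin N → k) :=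
  linearIndependent_finSnoc.2 ⟨hu, hw⟩

/-- one more vector in the kernel of some functionals -/
theorem exists_next {m r : ℕ} (f : Fin m → (Fin N → k) →ₗ[k] k) (u : Fin r → Fin N → k)
    (hu : LinearIndependent k u) (h : m + r < N) :
    ∃ w, (∀ i, f i w = 0) ∧ LinearIndependent k (Fin.snoc u w : Fin (r + 1) → Fin N → k) := by
  obtain ⟨w, hw, hn⟩ := exists_ker f (Submodule.span k (Set.range u)) (by
    have := finrank_range_le_card (R := k) u
    rw [Fintype.card_fin] at this
    have h' : Module.finrank k (Submodule.span k (Set.range u)) ≤ r := this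
    omega)
  exact ⟨w, hw, snoc_indep hu hn⟩

theorem vk_eq (v0 v1 v2 : Fin N → k) : vk v0 v1 v2 =
    cst (K2 k) v0 + s0 k • cst (K2 k) v1 + s1 k • cst (K2 k) v2 := rfl

/-- planes -/
theorem rat_0 (hN : 3 ≤ N) : ∃ y : Fin N → K2 k, ∃ i, y i ≠ 0 ∧
    IntermediateField.adjoin k (Set.range fun j => y j / y i) = ⊤ := by
  obtain ⟨v0, -, h0⟩ := exists_next (k := k) (N := N) (m := 0) Fin.elim0 Fin.elim0
    linearIndependent_empty_type (by omega)
  obtain ⟨v1, -, h1⟩ := exists_next (m := 0) Fin.elim0 _ h0 (by omega)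
  obtain ⟨v2, -, h2⟩ := exists_next (m := 0) Fin.elim0 _ h1 (by omega)
  refine ⟨vk v0 v1 v2, rat_of _ h2 ![1, s0 k, s1 k] 0 1 2 one_ne_zero (by simp) (by simp) _ ?_⟩
  rw [vk_eq, Fin.sum_univ_three]
  simp [Fin.snoc]

/-- quadrics -/
theorem rat_2 [IsAlgClosed k] (h2 : (2 : k) ≠ 0) (hN : 4 ≤ N) {B : Fin N → Fin N → k}
    (hB : SymB B) (hS : ∀ x : Fin N → k, x ≠ 0 → bil B x x = 0 → ∃ v, bil B x v ≠ 0) :
    ∃ y : Fin N → K2 k, bil B y y = 0 ∧ ∃ i, y i ≠ 0 ∧
      IntermediateField.adjoin k (Set.range fun j => y j / y i) = ⊤ := by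
  -- an isotropic vector
  obtain ⟨x, hx0, hx⟩ : ∃ x : Fin N → k, x ≠ 0 ∧ bil B x x = 0 := by
    obtain ⟨e0, -, h0⟩ := exists_next (k := k) (N := N) (m := 0) Fin.elim0 Fin.elim0
      linearIndependent_empty_type (by omega)
    obtain ⟨e1, -, h1⟩ := exists_next (m := 0) Fin.elim0 _ h0 (by omega)
    have e0n : e0 ≠ 0 := h0.ne_zero (0 : Fin 1)
    by_cases hc : bil B e0 e0 = 0
    · exact ⟨e0, e0n, hc⟩
    · obtain ⟨z, hz⟩ := quad_root (bil B e0 e0) (2 * bil B e0 e1) (bil B e1 e1) hc
      refine ⟨z • e0 + (1 : k) • e1, ?_, ?_⟩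
      · intro h
        have hli : LinearIndependent k ![e0, e1] := by
          have e : (Fin.snoc (Fin.snoc (Fin.elim0 : Fin 0 → Fin N → k) e0 :
            Fin 1 → Fin N → k) e1 : Fin 2 → Fin N → k) = ![e0, e1] := by
            funext i
            fin_cases i <;> simp [Fin.snoc]
          rw [← e]
          exact h1
        exact one_ne_zero (LinearIndependent.pair_iff.1 hli z 1 h).2
      · simp only [bil_add1, bil_add2, bil_smul1, bil_smul2, bil_symm hB e1 e0]
        linear_combination hz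
  obtain ⟨v0, hv0⟩ := hS x hx0 hx
  have hli : LinearIndependent k ![x, v0] := by
    rw [LinearIndependent.pair_iff]
    intro s t hst
    have e := congrArg (bil B x) hst
    rw [bil_add2, bil_smul2, bil_smul2, hx, bil_zero2, mul_zero, zero_add] at e
    have ht : t = 0 := (mul_eq_zero.1 e).resolve_right hv0
    rw [ht, zero_smul, add_zero] at hst
    exact ⟨(smul_eq_zero.1 hst).resolve_right hx0, ht⟩
  obtain ⟨v1, -, h1⟩ := exists_next (m := 0) Fin.elim0 _ hli (by omega)
  obtain ⟨v2, -, h2'⟩ := exists_next (m := 0) Fin.elim0 _ h1 (by omega)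
  set v := vk v0 v1 v2 with hv
  have hne : bil B (cst (K2 k) x) v ≠ 0 := bil_vk_ne B x v0 v1 v2 hv0
  have hxx : bil B (cst (K2 k) x) (cst (K2 k) x) = 0 := by rw [bil_cst, hx, map_zero]
  have h2K : (2 : K2 k) ≠ 0 := by
    have := (_root_.map_ne_zero (algebraMap k (K2 k))).2 h2
    rwa [map_ofNat] at this
  set c := -(2 * bil B (cst (K2 k) x) v) with hc
  have hc0 : c ≠ 0 := neg_ne_zero.2 (mul_ne_zero h2K hne)
  refine ⟨bil B v v • cst (K2 k) x + c • v, ?_,
    rat_of _ h2' ![bil B v v, c, c * s0 k, c * s1 k] 1 2 3 hc0 (by simp) (by simp) _ ?_⟩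
  · simp only [bil_add1, bil_add2, bil_smul1, bil_smul2, hxx, bil_symm hB v (cst (K2 k) x)]
    rw [hc]
    ring
  · rw [hv, vk_eq, Fin.sum_univ_four]
    simp only [Fin.snoc, smul_add, smul_smul]
    simp
    abel

end Pool.Agent.Helper97.QF
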