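import Pool.Agent.Helper97.QF.Easy2

/-!
# QF: rational surfaces on smooth cubic hypersurfaces

A point `x` and a tangent direction `v0` with `T(x,v0,v0) ≠ 0`: the residual points of the lines through `x` in the tangent space form a rational variety. If there is no such pair, then the
hypersurface is singular.
-/

set_option autoImplicit false

namespace Pool.Agent.Helper97.QF

open MvPolynomial

variable {k : Type*} [Field k] {N : ℕ}

/-- a functional which vanishes on the kernel of another one is a multiple of it -/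
theorem prop_of_ker (f g : (Fin N → k) →ₗ[k] k) (hf : ∃ v, f v ≠ 0)
    (h : ∀ w, f w = 0 → g w = 0) : ∃ c : k, ∀ w, g w = c * f w := by
  obtain ⟨v, hv⟩ := hf
  refine ⟨g v / f v, fun w => ?_⟩
  have e := h (w - (f w / f v) • v) (by
    rw [map_sub, map_smul, smul_eq_mul, div_mul_cancel₀ _ hv, sub_self])
  rw [map_sub, map_smul, smul_eq_mul, sub_eq_zero] at e
  rw [e]
  ring

/-- a nonzero zero of the cubic form on the span of two vectors -/
theorem tri_zero_pair [IsAlgClosed k] {T : Fin N → Fin N → Fin N → k} (hT : SymT T)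
    (w1 w2 : Fin N → k) : ∃ s t : k, (s ≠ 0 ∨ t ≠ 0) ∧
      tri T (s • w1 + t • w2) (s • w1 + t • w2) (s • w1 + t • w2) = 0 := by
  by_cases hc : tri T w1 w1 w1 = 0
  · refine ⟨1, 0, Or.inl one_ne_zero, ?_⟩
    rw [zero_smul, one_smul, add_zero, hc]
  · obtain ⟨z, hz⟩ := cubic_root (tri T w1 w1 w1) (3 * tri T w1 w1 w2) (3 * tri T w1 w2 w2)
      (tri T w2 w2 w2) hc
    refine ⟨z, 1, Or.inr one_ne_zero, ?_⟩
    have e1 : tri T w1 w2 w1 = tri T w1 w1 w2 := tri_s23 hT _ _ _
    have e2 : tri T w2 w1 w1 = tri T w1 w1 w2 := by rw [tri_s12 hT]; exact e1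
    have e3 : tri T w2 w1 w2 = tri T w1 w2 w2 := tri_s12 hT _ _ _
    have e4 : tri T w2 w2 w1 = tri T w1 w2 w2 := by rw [tri_s23 hT]; exact e3
    simp only [tri_add1, tri_add2, tri_add3, tri_smul1, tri_smul2, tri_smul3, e1, e2, e3, e4]
    linear_combination hz

/-- smooth cubic forms -/
def Smo3 (T : Fin N → Fin N → Fin N → k) : Prop :=
  ∀ x : Fin N → k, x ≠ 0 → tri T x x x = 0 → ∃ v, tri T x x v ≠ 0

/-- existence of a good pair -/
theorem exists_pair [IsAlgClosed k] (h2 : (2 : k) ≠ 0) (hN : 5 ≤ N)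
    {T : Fin N → Fin N → Fin N → k} (hT : SymT T) (hS : Smo3 T) :
    ∃ x v : Fin N → k, x ≠ 0 ∧ tri T x x x = 0 ∧ tri T x x v = 0 ∧ tri T x v v ≠ 0 := by
  by_contra hcon
  have H : ∀ x v : Fin N → k, x ≠ 0 → tri T x x x = 0 → tri T x x v = 0 → tri T x v v = 0 := by
    intro x v hx h1 h2
    by_contra h3
    exact hcon ⟨x, v, hx, h1, h2, h3⟩
  have H' : ∀ x v w : Fin N → k, x ≠ 0 → tri T x x x = 0 → tri T x x v = 0 →
      tri T x x w = 0 → tri T x v w = 0 := by
    intro x v w hx h1 hv hw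
    have e := H x (v + w) hx h1 (by rw [tri_add3, hv, hw, add_zero])
    rw [tri_add2, tri_add3, tri_add3, H x v hx h1 hv, H x w hx h1 hw, tri_s23 hT x w v] at e
    have e' : 2 * tri T x v w = 0 := by linear_combination e
    exact (mul_eq_zero.1 e').resolve_left h2
  -- the first point
  obtain ⟨e0, -, h0⟩ := exists_next (k := k) (N := N) (m := 0) Fin.elim0 Fin.elim0
    linearIndependent_empty_type (by omega)
  obtain ⟨e1, -, h1⟩ := exists_next (m := 0) Fin.elim0 _ h0 (by omega)
  have hli : LinearIndependent k ![e0, e1] := by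
    have e : (Fin.snoc (Fin.snoc (Fin.elim0 : Fin 0 → Fin N → k) e0 :
      Fin 1 → Fin N → k) e1 : Fin 2 → Fin N → k) = ![e0, e1] := by
      funext i
      fin_cases i <;> simp [Fin.snoc]
    rw [← e]
    exact h1
  obtain ⟨s, t, hst, ha⟩ := tri_zero_pair hT e0 e1
  set a := s • e0 + t • e1 with had
  have ha0 : a ≠ 0 := by
    intro h
    have := LinearIndependent.pair_iff.1 hli s t h
    rcases hst with h | h
    · exact h this.1
    · exact h this.2
  -- the second point
  have hla : LinearIndependent k ![a] := by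
    rw [linearIndependent_unique_iff]
    exact ha0
  obtain ⟨b1, hb1, hl1⟩ := exists_next (m := 1) ![triL T a a] _ hla (by omega)
  obtain ⟨b2, hb2, hl2⟩ := exists_next (m := 1) ![triL T a a] _ hl1 (by omega)
  have hab1 : tri T a a b1 = 0 := hb1 0
  have hab2 : tri T a a b2 = 0 := hb2 0
  have hl3 : LinearIndependent k ![a, b1, b2] := by
    have e : (Fin.snoc (Fin.snoc (![a] : Fin 1 → Fin N → k) b1 :
      Fin 2 → Fin N → k) b2 : Fin 3 → Fin N → k) = ![a, b1, b2] := by
      funext i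
      fin_cases i <;> simp [Fin.snoc]
    rw [← e]
    exact hl2
  obtain ⟨p, q, hpq, hb⟩ := tri_zero_pair hT b1 b2
  set b := p • b1 + q • b2 with hbd
  have haab : tri T a a b = 0 := by
    rw [hbd, tri_add3, tri_smul3, tri_smul3, hab1, hab2]
    ring
  have hI : ∀ s t : k, (s ≠ 0 ∨ t ≠ 0) → s • a + t • b ≠ 0 := by
    intro s t hst h
    have h' := Fintype.linearIndependent_iff.1 hl3 ![s, t * p, t * q] (by
      rw [Fin.sum_univ_three]
      simp only [Matrix.cons_val_zero, Matrix.cons_val_one, Matrix.cons_val]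
      rw [← h, hbd, smul_add t (p • b1) (q • b2), smul_smul t, smul_smul t, add_assoc])
    have q0 : s = 0 := h' 0
    have q1 : t * p = 0 := h' 1
    have q2 : t * q = 0 := h' 2
    rcases hst with hs | ht
    · exact hs q0
    · rcases hpq with hp | hq
      · exact hp ((mul_eq_zero.1 q1).resolve_left ht)
      · exact hq ((mul_eq_zero.1 q2).resolve_left ht)
  have hb0 : b ≠ 0 := by
    have := hI 0 1 (Or.inr one_ne_zero)
    rwa [zero_smul, one_smul, zero_add] at this
  have habb : tri T a b b = 0 := H a b ha0 ha haab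
  have hbba : tri T b b a = 0 := by rw [tri_s13 hT]; exact habb
  -- points of the line
  have hline : ∀ s t : k, tri T (s • a + t • b) (s • a + t • b) (s • a + t • b) = 0 := by
    intro s t
    have f1 : tri T a b a = 0 := by rw [tri_s23 hT]; exact haab
    have f2 : tri T b a a = 0 := by rw [tri_s12 hT]; exact f1
    have f3 : tri T b a b = 0 := by rw [tri_s12 hT]; exact habb
    simp only [tri_add1, tri_add2, tri_add3, tri_smul1, tri_smul2, tri_smul3, ha, haab, habb, hb,
      f1, f2, f3, hbba]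
    ring
  have hzz : ∀ (s t : k) (w : Fin N → k), tri T (s • a + t • b) (s • a + t • b) w =
      s ^ 2 * tri T a a w + 2 * s * t * tri T a b w + t ^ 2 * tri T b b w :=
    fun s t w => tri_zz hT a b w s t
  obtain ⟨α, hα⟩ := prop_of_ker (triL T a a) (triL T a b) (hS a ha0 ha)
    (fun w hw => H' a b w ha0 ha haab hw)
  obtain ⟨β, hβ⟩ := prop_of_ker (triL T b b) (triL T b a) (hS b hb0 hb)
    (fun w hw => H' b a w hb0 hb hbba hw)
  have hα' : ∀ w, tri T a b w = α * tri T a a w := hα
  have hβ' : ∀ w, tri T a b w = β * tri T b b w := by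
    intro w
    rw [tri_s12 hT]
    exact hβ w
  by_cases hα0 : α = 0
  · -- the mixed form vanishes
    have hM : ∀ w, tri T a b w = 0 := by
      intro w
      rw [hα' w, hα0, zero_mul]
    have hx0 := hI 1 1 (Or.inl one_ne_zero)
    have hx := hline 1 1
    obtain ⟨γ, hγ⟩ := prop_of_ker (triL T ((1 : k) • a + (1 : k) • b) ((1 : k) • a + (1 : k) • b))
      (triL T ((1 : k) • a + (1 : k) • b) b) (hS _ hx0 hx) (fun w hw =>
        H' _ b w hx0 hx (by rw [hzz, haab, habb, hb]; ring) hw)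
    have hγ' : ∀ w, tri T b b w = γ * (tri T a a w + tri T b b w) := by
      intro w
      have := hγ w
      rw [triL_apply, triL_apply, hzz, hM w, tri_add1, tri_smul1, tri_smul1, hM w] at this
      linear_combination this
    have hγ0 : γ ≠ 0 := by
      intro h
      obtain ⟨v, hv⟩ := hS b hb0 hb
      apply hv
      rw [hγ' v, h, zero_mul]
    -- `A = ρ D`
    obtain ⟨z, hz⟩ := quad_root (γ : k) 0 (1 - γ) hγ0
    have hz0 := hI 1 z (Or.inl one_ne_zero)
    obtain ⟨v, hv⟩ := hS _ hz0 (hline 1 z)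
    apply hv
    rw [hzz, hM v]
    refine mul_left_cancel₀ hγ0 ?_
    linear_combination (tri T b b v) * hz - hγ' v
  · have hβ0 : β ≠ 0 := by
      intro h
      obtain ⟨v, hv⟩ := hS a ha0 ha
      have := hα' v
      rw [hβ' v, h, zero_mul] at this
      exact (mul_ne_zero hα0 hv) this.symm
    obtain ⟨z, hz⟩ := quad_root (α : k) (2 * α * β) β hα0
    have hz0 := hI 1 z (Or.inl one_ne_zero)
    obtain ⟨v, hv⟩ := hS _ hz0 (hline 1 z)
    apply hv
    rw [hzz]
    refine mul_left_cancel₀ hβ0 ?_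
    have e1 := hα' v
    have e2 := hβ' v
    linear_combination (tri T a a v) * hz + 2 * z * β * e1 - z ^ 2 * e2 + z ^ 2 * e1

/-- cubic hypersurfaces -/
theorem rat_3 [IsAlgClosed k] (h2 : (2 : k) ≠ 0) (h3 : (3 : k) ≠ 0) (hN : 5 ≤ N)
    {T : Fin N → Fin N → Fin N → k} (hT : SymT T) (hS : Smo3 T) :
    ∃ y : Fin N → K2 k, tri T y y y = 0 ∧ ∃ i, y i ≠ 0 ∧
      IntermediateField.adjoin k (Set.range fun j => y j / y i) = ⊤ := by
  obtain ⟨x, v0, hx0, hx, hxv0, hne0⟩ := exists_pair h2 hN hT hS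
  have hli : LinearIndependent k ![x, v0] := by
    rw [LinearIndependent.pair_iff]
    intro s t hst
    have e := congrArg (tri T x v0) hst
    have hz : tri T x v0 0 = 0 := by simp [tri]
    rw [tri_add3, tri_smul3, tri_smul3, tri_s23 hT x v0 x, hxv0, hz, mul_zero, zero_add] at e
    have ht : t = 0 := (mul_eq_zero.1 e).resolve_right hne0
    rw [ht, zero_smul, add_zero] at hst
    exact ⟨(smul_eq_zero.1 hst).resolve_right hx0, ht⟩
  obtain ⟨v1, hv1, h1⟩ := exists_next (m := 1) ![triL T x x] _ hli (by omega)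
  obtain ⟨v2, hv2, h2'⟩ := exists_next (m := 1) ![triL T x x] _ h1 (by omega)
  have hxv1 : tri T x x v1 = 0 := hv1 0
  have hxv2 : tri T x x v2 = 0 := hv2 0
  set v := vk v0 v1 v2 with hv
  have hne : tri T (cst (K2 k) x) v v ≠ 0 := tri_vk_ne T x v0 v1 v2 hne0
  have hxxx : tri T (cst (K2 k) x) (cst (K2 k) x) (cst (K2 k) x) = 0 := by
    rw [tri_cst, hx, map_zero]
  have hxxv : tri T (cst (K2 k) x) (cst (K2 k) x) v = 0 := by
    rw [hv, vk_eq, tri_add3, tri_add3, tri_smul3, tri_smul3, tri_cst, tri_cst, tri_cst, hxv0,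
      hxv1, hxv2]
    simp
  have h3K : (3 : K2 k) ≠ 0 := by
    have := (_root_.map_ne_zero (algebraMap k (K2 k))).2 h3
    rwa [map_ofNat] at this
  set c := -(3 * tri T (cst (K2 k) x) v v) with hc
  have hc0 : c ≠ 0 := neg_ne_zero.2 (mul_ne_zero h3K hne)
  refine ⟨tri T v v v • cst (K2 k) x + c • v, ?_,
    rat_of _ h2' ![tri T v v v, c, c * s0 k, c * s1 k] 1 2 3 hc0 (by simp) (by simp) _ ?_⟩
  · have f1 : tri T (cst (K2 k) x) v (cst (K2 k) x) = 0 := by rw [tri_s23 hT]; exact hxxv
    have f2 : tri T v (cst (K2 k) x) (cst (K2 k) x) = 0 := by rw [tri_s12 hT]; exact f1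
    have f3 : tri T v (cst (K2 k) x) v = tri T (cst (K2 k) x) v v := tri_s12 hT _ _ _
    have f4 : tri T v v (cst (K2 k) x) = tri T (cst (K2 k) x) v v := by
      rw [tri_s23 hT]; exact f3
    simp only [tri_add1, tri_add2, tri_add3, tri_smul1, tri_smul2, tri_smul3, hxxx, hxxv, f1, f2,
      f3, f4]
    rw [hc]
    ring
  · rw [hv, vk_eq, Fin.sum_univ_four]
    simp only [Fin.snoc, smul_add, smul_smul]
    simp
    abel

end Pool.Agent.Helper97.QF
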