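import Pool.Agent.Helper97.QF.Easy3

/-!
# QF: rational surfaces on smooth intersections of two quadrics, by projection from a line
-/

set_option autoImplicit false

namespace Pool.Agent.Helper97.QF

open MvPolynomial

variable {k : Type*} [Field k] {N : ℕ}

/-- smooth complete intersections of two quadrics -/
def Smo22 (B1 B2 : Fin N → Fin N → k) : Prop :=
  ∀ x : Fin N → k, x ≠ 0 → bil B1 x x = 0 → bil B2 x x = 0 →
    ∀ α β : k, (∀ v, α * bil B1 x v + β * bil B2 x v = 0) → α = 0 ∧ β = 0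

/-- the determinant of the projection from the line -/
def Dl {R : Type*} [CommRing R] [Algebra k R] (B1 B2 : Fin N → Fin N → k) (a b u : Fin N → R) : R :=
  bil B1 a u * bil B2 b u - bil B1 b u * bil B2 a u

theorem exists_Dl {B1 B2 : Fin N → Fin N → k} {a b : Fin N → k} (hS : Smo22 B1 B2)
    (hI : LinearIndependent k ![a, b]) (h1a : bil B1 a a = 0) (h2a : bil B2 a a = 0)
    (h1b : bil B1 b b = 0) (h2b : bil B2 b b = 0) (h1 : bil B1 a b = 0) (h2 : bil B2 a b = 0)
    (hB1 : SymB B1) (hB2 : SymB B2) : ∃ u, Dl B1 B2 a b u ≠ 0 := by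
  by_contra hcon
  push Not at hcon
  have hne : ∀ s t : k, (s ≠ 0 ∨ t ≠ 0) → s • a + t • b ≠ 0 := by
    intro s t hst h
    have := LinearIndependent.pair_iff.1 hI s t h
    rcases hst with h | h
    · exact h this.1
    · exact h this.2
  have ha0 : a ≠ 0 := by
    have := hne 1 0 (Or.inl one_ne_zero)
    rwa [one_smul, zero_smul, add_zero] at this
  -- the functional `B1(a,.)` is not zero
  have hf : ∃ v, bilL B1 a v ≠ 0 := by
    by_contra hc
    push Not at hc
    have := hS a ha0 h1a h2a 1 0 (by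
      intro v
      have e : bil B1 a v = 0 := hc v
      rw [e]
      ring)
    exact one_ne_zero this.1
  -- a vector in the kernel of the first functional, not in the kernel of the second one
  obtain ⟨w0, hw0, hw0'⟩ : ∃ w0, bil B1 a w0 = 0 ∧ bil B2 a w0 ≠ 0 := by
    by_contra hc
    push Not at hc
    obtain ⟨c, hc'⟩ := prop_of_ker (bilL B1 a) (bilL B2 a) hf (fun w hw => hc w hw)
    have := hS a ha0 h1a h2a (-c) 1 (by
      intro v
      have e : bil B2 a v = c * bil B1 a v := hc' v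
      rw [e]
      ring)
    exact one_ne_zero this.2
  have hker : ∀ w, bilL B1 a w = 0 → bilL B1 b w = 0 := by
    intro w hw
    have hw' : bil B1 a w = 0 := hw
    change bil B1 b w = 0
    have e0 : bil B1 b w0 = 0 := by
      have e := hcon w0
      rw [Dl, hw0, zero_mul, zero_sub, neg_eq_zero] at e
      exact (mul_eq_zero.1 e).resolve_right hw0'
    by_cases hw2 : bil B2 a w = 0
    · have e := hcon (w + w0)
      rw [Dl, bil_add2, bil_add2, bil_add2, bil_add2, hw', hw0, e0, hw2] at e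
      have e' : bil B1 b w * bil B2 a w0 = 0 := by linear_combination -e
      exact (mul_eq_zero.1 e').resolve_right hw0'
    · have e := hcon w
      rw [Dl, hw', zero_mul, zero_sub, neg_eq_zero] at e
      exact (mul_eq_zero.1 e).resolve_right hw2
  obtain ⟨c, hc⟩ := prop_of_ker (bilL B1 a) (bilL B1 b) hf hker
  -- the point `b - c a`
  have hz := hne (-c) 1 (Or.inr one_ne_zero)
  have hz1 : bil B1 ((-c) • a + (1 : k) • b) ((-c) • a + (1 : k) • b) = 0 := by
    simp only [bil_add1, bil_add2, bil_smul1, bil_smul2, h1a, h1b, h1, bil_symm hB1 b a]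
    ring
  have hz2 : bil B2 ((-c) • a + (1 : k) • b) ((-c) • a + (1 : k) • b) = 0 := by
    simp only [bil_add1, bil_add2, bil_smul1, bil_smul2, h2a, h2b, h2, bil_symm hB2 b a]
    ring
  have := hS _ hz hz1 hz2 1 0 (by
    intro v
    have e : bil B1 b v = c * bil B1 a v := hc v
    rw [bil_add1, bil_smul1, bil_smul1, e]
    ring)
  exact one_ne_zero this.1

/-- intersections of two quadrics -/
theorem rat_22 (h2 : (2 : k) ≠ 0) (hN : 5 ≤ N) {B1 B2 : Fin N → Fin N → k}
    (hB1 : SymB B1) (hB2 : SymB B2) (hS : Smo22 B1 B2) {a b : Fin N → k}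
    (hI : LinearIndependent k ![a, b]) (h1a : bil B1 a a = 0) (h2a : bil B2 a a = 0)
    (h1b : bil B1 b b = 0) (h2b : bil B2 b b = 0) (h1 : bil B1 a b = 0) (h2' : bil B2 a b = 0) :
    ∃ y : Fin N → K2 k, bil B1 y y = 0 ∧ bil B2 y y = 0 ∧ ∃ i, y i ≠ 0 ∧
      IntermediateField.adjoin k (Set.range fun j => y j / y i) = ⊤ := by
  obtain ⟨u0, hu0⟩ := exists_Dl hS hI h1a h2a h1b h2b h1 h2' hB1 hB2
  have hli : LinearIndependent k (Fin.snoc ![a, b] u0 : Fin 3 → Fin N → k) := by
    refine snoc_indep hI ?_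
    intro hmem
    have hr : Set.range ![a, b] = {a, b} := by simp [Set.pair_comm b a]
    rw [hr, Submodule.mem_span_pair] at hmem
    obtain ⟨s, t, rfl⟩ := hmem
    apply hu0
    simp only [Dl, bil_add2, bil_smul2, h1a, h1b, h2a, h2b, h1, h2', bil_symm hB1 b a,
      bil_symm hB2 b a]
    ring
  obtain ⟨u1, -, hl1⟩ := exists_next (m := 0) Fin.elim0 _ hli (by omega)
  obtain ⟨u2, -, hl2⟩ := exists_next (m := 0) Fin.elim0 _ hl1 (by omega)
  set u := vk u0 u1 u2 with hu
  set A := cst (K2 k) a with hA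
  set Bb := cst (K2 k) b with hBb
  have hDu : Dl B1 B2 A Bb u ≠ 0 := by
    have e1 : ∀ (S : Type _) [CommRing S] [Algebra k S] (g : A2 k →ₐ[k] S),
        Dl B1 B2 (cst S a) (cst S b) (fun i => g (va u0 u1 u2 i)) =
          g (Dl B1 B2 (cst (A2 k) a) (cst (A2 k) b) (va u0 u1 u2)) := by
      intro S _ _ g
      simp only [Dl, map_sub, map_mul, ← bil_map, cst_map]
    have e2 := e1 (K2 k) (inc k)
    have e3 := e1 k (ev0 k)
    rw [inc_va] at e2
    rw [ev0_va] at e3
    rw [hA, hBb, hu, e2]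
    exact inc_ne_zero (by rw [← e3]; exact hu0)
  have h2K : (2 : K2 k) ≠ 0 := by
    have := (_root_.map_ne_zero (algebraMap k (K2 k))).2 h2
    rwa [map_ofNat] at this
  have f1a : bil B1 A A = 0 := by rw [hA, bil_cst, h1a, map_zero]
  have f2a : bil B2 A A = 0 := by rw [hA, bil_cst, h2a, map_zero]
  have f1b : bil B1 Bb Bb = 0 := by rw [hBb, bil_cst, h1b, map_zero]
  have f2b : bil B2 Bb Bb = 0 := by rw [hBb, bil_cst, h2b, map_zero]
  have f1 : bil B1 A Bb = 0 := by rw [hA, hBb, bil_cst, h1, map_zero]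
  have f2 : bil B2 A Bb = 0 := by rw [hA, hBb, bil_cst, h2', map_zero]
  set p := -(bil B1 u u * bil B2 Bb u - bil B2 u u * bil B1 Bb u) with hp
  set q := -(bil B1 A u * bil B2 u u - bil B2 A u * bil B1 u u) with hq
  set c := 2 * Dl B1 B2 A Bb u with hc
  have hc0 : c ≠ 0 := mul_ne_zero h2K hDu
  refine ⟨p • A + q • Bb + c • u, ?_, ?_, rat_of _ hl2 ![p, q, c, c * s0 k, c * s1 k] 2 3 4 hc0
    (by simp) (by simp) _ ?_⟩
  · simp only [bil_add1, bil_add2, bil_smul1, bil_smul2, f1a, f1b, f1, bil_symm hB1 Bb A,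
      bil_symm hB1 u A, bil_symm hB1 u Bb]
    rw [hp, hq, hc, Dl]
    ring
  · simp only [bil_add1, bil_add2, bil_smul1, bil_smul2, f2a, f2b, f2, bil_symm hB2 Bb A,
      bil_symm hB2 u A, bil_symm hB2 u Bb]
    rw [hp, hq, hc, Dl]
    ring
  · rw [hu, vk_eq, Fin.sum_univ_five]
    simp only [Fin.snoc, smul_add, smul_smul]
    simp
    abel

end Pool.Agent.Helper97.QF
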