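import Pool.Agent.Helper11.LS.Line

/-!
# QF: lines on intersections of two quadrics in at least six variables
-/

set_option autoImplicit false

namespace Pool.Agent.Helper97.QF

open Polynomial Pool.Agent.Helper11.LS

universe u

variable {k : Type u} [Field k]

/-- the special system of type (2,2) -/
noncomputable def G22 (k : Type u) [Field k] : Fin 2 → MvPolynomial (Fin 6) k :=
  ![MvPolynomial.X 2 * MvPolynomial.X 0 + MvPolynomial.X 3 * MvPolynomial.X 1,
    MvPolynomial.X 4 * MvPolynomial.X 0 + MvPolynomial.X 5 * MvPolynomial.X 1]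

/-- the chart of lines for the type (2,2) -/
noncomputable def A22 (Z : Fin 6 → PowerSeries k) : Fin 6 → PowerSeries k :=
  ![1, 0, Z 0, 0, Z 3, 0]

/-- the chart of lines for the type (2,2) -/
noncomputable def B22 (Z : Fin 6 → PowerSeries k) : Fin 6 → PowerSeries k :=
  ![0, 1, Z 1, Z 2, Z 4, Z 5]

/-- the equations for the type (2,2) -/
def e22 : Fin 6 → Fin 2 × ℕ := ![(0, 0), (0, 1), (0, 2), (1, 0), (1, 1), (1, 2)]

theorem coeff_quad' (c0 c1 c2 : PowerSeries k) :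
    (C c0 + X * C c1 + X ^ 2 * C c2 : (PowerSeries k)[X]).coeff 0 = c0 ∧
    (C c0 + X * C c1 + X ^ 2 * C c2 : (PowerSeries k)[X]).coeff 1 = c1 ∧
    (C c0 + X * C c1 + X ^ 2 * C c2 : (PowerSeries k)[X]).coeff 2 = c2 := by
  have h : ∀ (j n : ℕ) (r : PowerSeries k), (X ^ j * C r : (PowerSeries k)[X]).coeff n =
      if n = j then r else 0 := by
    intro j n r
    rw [mul_comm, coeff_C_mul_X_pow]
  have h1 : ∀ (n : ℕ) (r : PowerSeries k), (X * C r : (PowerSeries k)[X]).coeff n =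
      if n = 1 then r else 0 := by
    intro n r
    have := h 1 n r
    rwa [pow_one] at this
  refine ⟨?_, ?_, ?_⟩ <;> simp [coeff_add, h, h1, coeff_C]

theorem line_six22 [IsAlgClosed k] (F : Fin 2 → MvPolynomial (Fin 6) k)
    (hF : ∀ c, (F c).IsHomogeneous 2) :
    ∃ a b : Fin 6 → k, LinearIndependent k ![a, b] ∧
      ∀ c, ∀ s t : k, MvPolynomial.eval (s • a + t • b) (F c) = 0 := by
  have hX : ∀ i : Fin 6, (MvPolynomial.X i : MvPolynomial (Fin 6) k).IsHomogeneous 1 :=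
    fun i => MvPolynomial.isHomogeneous_X k i
  refine line_sys (fun _ => 2) F (G22 k) hF ?_ A22 B22 0 1 (fun _ => rfl) (fun _ => rfl)
    (fun _ => rfl) (fun _ => rfl) ?_ ?_ e22 ?_ ?_
  · intro c
    fin_cases c
    · exact ((hX 2).mul (hX 0)).add ((hX 3).mul (hX 1))
    · exact ((hX 4).mul (hX 0)).add ((hX 5).mul (hX 1))
  · intro t Z Z' h l
    fin_cases l <;> simp [A22, h]
  · intro t Z Z' h l
    fin_cases l <;> simp [B22, h]
  · intro c n hn
    have : n = 0 ∨ n = 1 ∨ n = 2 := by omega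
    fin_cases c
    · rcases this with rfl | rfl | rfl
      · exact ⟨0, rfl⟩
      · exact ⟨1, rfl⟩
      · exact ⟨2, rfl⟩
    · rcases this with rfl | rfl | rfl
      · exact ⟨3, rfl⟩
      · exact ⟨4, rfl⟩
      · exact ⟨5, rfl⟩
  · intro Z i
    have h0 : (C (A22 Z 0) + X * C (B22 Z 0) : (PowerSeries k)[X]) = 1 := by simp [A22, B22]
    have h1 : (C (A22 Z 1) + X * C (B22 Z 1) : (PowerSeries k)[X]) = X := by simp [A22, B22]
    have h2 : (C (A22 Z 2) + X * C (B22 Z 2) : (PowerSeries k)[X]) = C (Z 0) + X * C (Z 1) := by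
      simp [A22, B22]
    have h3 : (C (A22 Z 3) + X * C (B22 Z 3) : (PowerSeries k)[X]) = X * C (Z 2) := by
      simp [A22, B22]
    have h4 : (C (A22 Z 4) + X * C (B22 Z 4) : (PowerSeries k)[X]) = C (Z 3) + X * C (Z 4) := by
      simp [A22, B22]
    have h5 : (C (A22 Z 5) + X * C (B22 Z 5) : (PowerSeries k)[X]) = X * C (Z 5) := by
      simp [A22, B22]
    have g0 : rest (A22 Z) (B22 Z) (G22 k 0) = C (Z 0) + X * C (Z 1) + X ^ 2 * C (Z 2) := by
      show rest (A22 Z) (B22 Z) (MvPolynomial.X 2 * MvPolynomial.X 0 +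
        MvPolynomial.X 3 * MvPolynomial.X 1) = _
      simp only [rest, map_add, map_mul, MvPolynomial.aeval_X]
      rw [h0, h1, h2, h3]
      ring
    have g1 : rest (A22 Z) (B22 Z) (G22 k 1) = C (Z 3) + X * C (Z 4) + X ^ 2 * C (Z 5) := by
      show rest (A22 Z) (B22 Z) (MvPolynomial.X 4 * MvPolynomial.X 0 +
        MvPolynomial.X 5 * MvPolynomial.X 1) = _
      simp only [rest, map_add, map_mul, MvPolynomial.aeval_X]
      rw [h0, h1, h4, h5]
      ring
    obtain ⟨a0, a1, a2⟩ := coeff_quad' (Z 0) (Z 1) (Z 2)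
    obtain ⟨b0, b1, b2⟩ := coeff_quad' (Z 3) (Z 4) (Z 5)
    fin_cases i
    · show (rest (A22 Z) (B22 Z) (G22 k 0)).coeff 0 = Z 0
      rw [g0, a0]
    · show (rest (A22 Z) (B22 Z) (G22 k 0)).coeff 1 = Z 1
      rw [g0, a1]
    · show (rest (A22 Z) (B22 Z) (G22 k 0)).coeff 2 = Z 2
      rw [g0, a2]
    · show (rest (A22 Z) (B22 Z) (G22 k 1)).coeff 0 = Z 3
      rw [g1, b0]
    · show (rest (A22 Z) (B22 Z) (G22 k 1)).coeff 1 = Z 4
      rw [g1, b1]
    · show (rest (A22 Z) (B22 Z) (G22 k 1)).coeff 2 = Z 5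
      rw [g1, b2]

/-- lines on complete intersections of type (2,2) -/
theorem line_22 [IsAlgClosed k] {n : ℕ} (hn : 5 ≤ n) (Q : Fin 2 → MvPolynomial (Fin (n + 1)) k)
    (hQ : ∀ c, (Q c).IsHomogeneous 2) :
    ∃ a b : Fin (n + 1) → k, LinearIndependent k ![a, b] ∧
      ∀ c, ∀ s t : k, MvPolynomial.eval (s • a + t • b) (Q c) = 0 := by
  obtain ⟨a, b, hab, h⟩ := line_six22
    (fun c => MvPolynomial.aeval (cut 6 (n + 1) k) (Q c)) (fun c => cut_hom (Q c) (hQ c))
  refine ⟨ext0 (n + 1) a, ext0 (n + 1) b, ext0_indep (by omega) a b hab, fun c s t => ?_⟩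
  rw [← ext0_comb, ← eval_cut]
  exact h c s t

end Pool.Agent.Helper97.QF
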