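import Pool.Agent.Helper97.QF.Pol
import Pool.Agent.Helper72.QT.RatUni
import Pool.Agent.Helper11.LS.Line

/-!
# QF: smooth complete intersections of type (2,3) contain a rational surface
-/

set_option autoImplicit false

namespace Pool.Agent.Helper97.QF

open MvPolynomial

universe u

/-- every smooth complete intersection of a quadric and a cubic in `ℙ^n`, `n ≥ 5`, contains a
rational surface (characteristic different from two and three) -/
theorem rat_23 (k : Type u) [Field k] [IsAlgClosed k] (h2 : (2 : k) ≠ 0) (h3 : (3 : k) ≠ 0)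
    {n : ℕ} (hn : 5 ≤ n) (Q F : MvPolynomial (Fin (n + 1)) k) (hQ : Q.IsHomogeneous 2)
    (hF : F.IsHomogeneous 3)
    (hS : ∀ x : Fin (n + 1) → k, x ≠ 0 → eval x Q = 0 → eval x F = 0 →
      LinearIndependent k ![fun i => eval x (pderiv i Q), fun i => eval x (pderiv i F)]) :
    ∃ y : Fin (n + 1) → FractionRing (MvPolynomial (Fin 2) k), aeval y Q = 0 ∧ aeval y F = 0 ∧
      ∃ i, y i ≠ 0 ∧ IntermediateField.adjoin k (Set.range fun j => y j / y i) = ⊤ := by
  obtain ⟨a, b, hab, hl⟩ := Pool.Agent.Helper11.LS.line_23 k hn Q F hQ hF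
  have hC := contRat_of_line h2 h3 (by omega) (symB_polB Q) (symT_polC F)
    (smo_pol h2 h3 Q F hQ hF hS) (line_pol h2 h3 Q F hQ hF a b hl) (ind_of a b hab)
  obtain ⟨e⟩ := Pool.Agent.Helper72.QT.exists_equiv (k := k)
  obtain ⟨y, hy1, hy2, hrest⟩ := transfer_rat e hC
  exact ⟨y, by rw [aeval_polB h2 Q hQ, hy1], by rw [aeval_polC h2 h3 F hF, hy2], hrest⟩

end Pool.Agent.Helper97.QF
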