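import Pool.Agent.Helper97.QF.Surf2

/-!
# QF: non-degeneracy

If for every basis `a`, `b` of the line the cubic form `Om` vanishes for all `u` over `k[t]` tangent along the line, then `B` vanishes on the orthogonal space of the line,
or the intersection is singular at a point of the line.
-/

set_option autoImplicit false

namespace Pool.Agent.Helper97.QF

open Polynomial

variable {k : Type*} [Field k] {N : ℕ}

/-- there is a direction, polynomial along the line, with non-degenerate residual point -/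
def Good (B : Fin N → Fin N → k) (T : Fin N → Fin N → Fin N → k) (a b : Fin N → k) : Prop :=
  ∃ P : Fin N → k[X], bil B (pt a b X) P = 0 ∧ tri T (pt a b X) (pt a b X) P = 0 ∧
    bil B (cst k[X] b) P ≠ 0 ∧ Om B T (pt a b X) (cst k[X] b) P ≠ 0

section formulas

variable {R : Type*} [CommRing R] [Algebra k R] {B : Fin N → Fin N → k}
  {T : Fin N → Fin N → Fin N → k}

theorem Om_sum (x b u v : Fin N → R) : 6 * Om B T x b u =
    4 * (Om B T x b (u + v) + Om B T x b (u - v)) -
      (Om B T x b (u + (2 : R) • v) + Om B T x b (u - (2 : R) • v)) := by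
  simp only [Om, bil_add1, bil_add2, bil_sub1, bil_sub2, bil_smul1, bil_smul2, tri_add2, tri_add3,
    tri_sub2, tri_sub3, tri_smul2, tri_smul3]
  ring

theorem tri_xx_cst (hT : SymT T) (a b w : Fin N → k) (t : R) :
    tri T (pt a b t) (pt a b t) (cst R w) = algebraMap k R (tri T a a w) +
      t * (2 * algebraMap k R (tri T a b w)) + t ^ 2 * algebraMap k R (tri T b b w) := by
  have e : tri T b a w = tri T a b w := tri_s12 hT _ _ _
  simp only [pt, tri_add1, tri_add2, tri_smul1, tri_smul2, tri_cst, e]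
  ring

theorem tri_xb_cst (a b w : Fin N → k) (t : R) :
    tri T (pt a b t) (cst R b) (cst R w) = algebraMap k R (tri T a b w) +
      t * algebraMap k R (tri T b b w) := by
  simp only [pt, tri_add1, tri_smul1, tri_cst]

theorem bil_x_cst (a b w : Fin N → k) (t : R) :
    bil B (pt a b t) (cst R w) = algebraMap k R (bil B a w) + t * algebraMap k R (bil B b w) := by
  simp only [pt, bil_add1, bil_smul1, bil_cst]

end formulas

/-- vectors dual to the functionals `B(a,.)`, `B(b,.)` -/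
structure Dual (B : Fin N → Fin N → k) (a b fa fb : Fin N → k) : Prop where
  aa : bil B a fa = 1
  ba : bil B b fa = 0
  ab : bil B a fb = 0
  bb : bil B b fb = 1

/-- the vector `w` is orthogonal to the line -/
structure Orth (B : Fin N → Fin N → k) (a b w : Fin N → k) : Prop where
  a : bil B a w = 0
  b : bil B b w = 0

theorem poly3 {p q r : k} (h : C p + X * C q + X ^ 2 * C r = 0) : p = 0 ∧ q = 0 ∧ r = 0 := by
  rw [mul_comm X (C q), mul_comm (X ^ 2) (C r)] at h
  have h0 := congrArg (fun f => coeff f 0) h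
  have h1 := congrArg (fun f => coeff f 1) h
  have h2 := congrArg (fun f => coeff f 2) h
  simp [coeff_C, coeff_X_pow] at h0 h1 h2
  exact ⟨h0, h1, h2⟩

theorem quad_root [IsAlgClosed k] (p q r : k) (hp : p ≠ 0) : ∃ z, p * z ^ 2 + q * z + r = 0 := by
  obtain ⟨z, hz⟩ := IsAlgClosed.exists_root (C p * X ^ 2 + C q * X + C r)
    (by rw [degree_quadratic hp]; decide)
  refine ⟨z, ?_⟩
  simpa [IsRoot] using hz

theorem cubic_root [IsAlgClosed k] (p q r s : k) (hp : p ≠ 0) :
    ∃ z, p * z ^ 3 + q * z ^ 2 + r * z + s = 0 := by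
  obtain ⟨z, hz⟩ := IsAlgClosed.exists_root (C p * X ^ 3 + C q * X ^ 2 + C r * X + C s)
    (by rw [degree_cubic hp]; decide)
  refine ⟨z, ?_⟩
  simpa [IsRoot] using hz

section

variable {B : Fin N → Fin N → k} {T : Fin N → Fin N → Fin N → k} {a b fa fb : Fin N → k}

theorem Om_zero (h2 : (2 : k) ≠ 0) (h3 : (3 : k) ≠ 0) (hng : ¬ Good B T a b)
    (u v : Fin N → k[X]) (hu1 : bil B (pt a b X) u = 0)
    (hu2 : tri T (pt a b X) (pt a b X) u = 0) (hu3 : bil B (cst k[X] b) u = 0)
    (hv1 : bil B (pt a b X) v = 0) (hv2 : tri T (pt a b X) (pt a b X) v = 0)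
    (hv3 : bil B (cst k[X] b) v ≠ 0) : Om B T (pt a b X) (cst k[X] b) u = 0 := by
  have h2X : (2 : k[X]) ≠ 0 := by
    have := (_root_.map_ne_zero_iff (algebraMap k k[X]) C_injective).2 h2
    rwa [map_ofNat] at this
  have h3X : (3 : k[X]) ≠ 0 := by
    have := (_root_.map_ne_zero_iff (algebraMap k k[X]) C_injective).2 h3
    rwa [map_ofNat] at this
  have key : ∀ c : k[X], c ≠ 0 → Om B T (pt a b X) (cst k[X] b) (u + c • v) = 0 := by
    intro c hc
    by_contra hne
    refine hng ⟨u + c • v, ?_, ?_, ?_, hne⟩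
    · rw [bil_add2, bil_smul2, hu1, hv1]
      ring
    · rw [tri_add3, tri_smul3, hu2, hv2]
      ring
    · rw [bil_add2, bil_smul2, hu3, zero_add]
      exact mul_ne_zero hc hv3
  have k1 := key 1 one_ne_zero
  have k2 := key (-1) (neg_ne_zero.2 one_ne_zero)
  have k3 := key 2 h2X
  have k4 := key (-2) (neg_ne_zero.2 h2X)
  have hs := Om_sum (B := B) (T := T) (pt a b X) (cst k[X] b) u v
  rw [one_smul] at k1
  rw [neg_smul, one_smul, ← sub_eq_add_neg] at k2
  rw [neg_smul, ← sub_eq_add_neg] at k4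
  rw [k1, k2, k3, k4] at hs
  have h6 : (2 : k[X]) * 3 * Om B T (pt a b X) (cst k[X] b) u = 0 := by
    linear_combination hs
  exact (mul_eq_zero.1 h6).resolve_left (mul_ne_zero h2X h3X)

/-- the vector `f_b - t f_a` -/
noncomputable def ff (fa fb : Fin N → k) : Fin N → k[X] := cst k[X] fb - (X : k[X]) • cst k[X] fa

theorem bil_x_ff (hD : Dual B a b fa fb) : bil B (pt a b X) (ff fa fb) = 0 := by
  rw [ff, bil_sub2, bil_smul2, bil_x_cst, bil_x_cst, hD.aa, hD.ab, hD.ba, hD.bb]
  simp

theorem bil_b_ff (hD : Dual B a b fa fb) : bil B (cst k[X] b) (ff fa fb) = 1 := by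
  rw [ff, bil_sub2, bil_smul2, bil_cst, bil_cst, hD.ba, hD.bb]
  simp

theorem bil_x_orth {w : Fin N → k} (hw : Orth B a b w) :
    bil B (pt a b X) (cst k[X] w) = 0 := by
  rw [bil_x_cst, hw.a, hw.b]
  simp

theorem bil_b_orth {w : Fin N → k} (hw : Orth B a b w) :
    bil B (cst k[X] b) (cst k[X] w) = 0 := by
  rw [bil_cst, hw.b, map_zero]

/-- the minors of the two vectors of values -/
def Minors (T : Fin N → Fin N → Fin N → k) (a b w1 w2 : Fin N → k) : Prop :=
  tri T a a w2 * tri T a b w1 = tri T a a w1 * tri T a b w2 ∧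
  tri T a a w2 * tri T b b w1 = tri T a a w1 * tri T b b w2 ∧
  tri T a b w2 * tri T b b w1 = tri T a b w1 * tri T b b w2

theorem O2 [IsAlgClosed k] (h2 : (2 : k) ≠ 0) (h3 : (3 : k) ≠ 0) (hB : SymB B) (hT : SymT T)
    (hng : ¬ Good B T a b) (hD : Dual B a b fa fb) {w1 w2 : Fin N → k} (hw1 : Orth B a b w1)
    (hw2 : Orth B a b w2) (hm : ¬ Minors T a b w1 w2) : bil B w1 w1 = 0 := by
  set x : Fin N → k[X] := pt a b X with hx
  set G1 : k[X] := tri T x x (cst k[X] w1) with hG1
  set G2 : k[X] := tri T x x (cst k[X] w2) with hG2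
  have eG1 : G1 = C (tri T a a w1) + X * C (2 * tri T a b w1) + X ^ 2 * C (tri T b b w1) := by
    rw [hG1, hx, tri_xx_cst hT]
    simp only [algebraMap_eq, map_mul, map_ofNat]
  have eG2 : G2 = C (tri T a a w2) + X * C (2 * tri T a b w2) + X ^ 2 * C (tri T b b w2) := by
    rw [hG2, hx, tri_xx_cst hT]
    simp only [algebraMap_eq, map_mul, map_ofNat]
  have hG10 : G1 ≠ 0 := by
    intro h0
    rw [h0] at eG1
    obtain ⟨e0, e1, e2⟩ := poly3 eG1.symm
    have e1' := (mul_eq_zero.1 e1).resolve_left h2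
    apply hm
    refine ⟨?_, ?_, ?_⟩ <;> simp [e0, e1', e2]
  set u : Fin N → k[X] := G2 • cst k[X] w1 - G1 • cst k[X] w2 with hu
  set v : Fin N → k[X] := tri T x x (ff fa fb) • cst k[X] w1 - G1 • ff fa fb with hv
  have hOm : Om B T x (cst k[X] b) u = 0 := by
    refine Om_zero h2 h3 hng u v ?_ ?_ ?_ ?_ ?_ ?_
    · rw [hu, bil_sub2, bil_smul2, bil_smul2, bil_x_orth hw1, bil_x_orth hw2]
      ring
    · rw [hu, tri_sub3, tri_smul3, tri_smul3, ← hx, ← hG1, ← hG2]
      ring
    · rw [hu, bil_sub2, bil_smul2, bil_smul2, bil_b_orth hw1, bil_b_orth hw2]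
      ring
    · rw [hv, bil_sub2, bil_smul2, bil_smul2, bil_x_orth hw1, bil_x_ff hD]
      ring
    · rw [hv, tri_sub3, tri_smul3, tri_smul3, ← hx, ← hG1]
      ring
    · rw [hv, bil_sub2, bil_smul2, bil_smul2, bil_b_orth hw1, bil_b_ff hD]
      simpa using hG10
  have hbu : bil B (cst k[X] b) u = 0 := by
    rw [hu, bil_sub2, bil_smul2, bil_smul2, bil_b_orth hw1, bil_b_orth hw2]
    ring
  have hmu : tri T x (cst k[X] b) u ≠ 0 := by
    intro h0
    rw [hu, tri_sub3, tri_smul3, tri_smul3, hx, tri_xb_cst, tri_xb_cst, eG1, eG2] at h0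
    simp only [algebraMap_eq, map_mul, map_ofNat] at h0
    have h4 : C (tri T a a w2 * tri T a b w1 - tri T a a w1 * tri T a b w2) +
        X * C (tri T a a w2 * tri T b b w1 - tri T a a w1 * tri T b b w2) +
        X ^ 2 * C (tri T a b w2 * tri T b b w1 - tri T a b w1 * tri T b b w2) = 0 := by
      simp only [map_sub, map_mul]
      linear_combination h0
    obtain ⟨e0, e1, e2⟩ := poly3 h4
    exact hm ⟨sub_eq_zero.1 e0, sub_eq_zero.1 e1, sub_eq_zero.1 e2⟩
  have hQ : bil B u u = 0 := by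
    rw [Om, hbu] at hOm
    have : bil B u u * tri T x (cst k[X] b) u = 0 := by linear_combination -hOm
    exact (mul_eq_zero.1 this).resolve_right hmu
  by_contra hα
  have hQ2 : C (bil B w1 w1) * G2 ^ 2 - 2 * C (bil B w1 w2) * G1 * G2 +
      C (bil B w2 w2) * G1 ^ 2 = 0 := by
    rw [hu] at hQ
    simp only [bil_sub1, bil_sub2, bil_smul1, bil_smul2, bil_cst, bil_symm hB w2 w1,
      algebraMap_eq] at hQ
    linear_combination hQ
  obtain ⟨z, hz⟩ := quad_root (bil B w1 w1) (-2 * bil B w1 w2) (bil B w2 w2) hα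
  have hz' : C (bil B w1 w1) * C z ^ 2 - 2 * C (bil B w1 w2) * C z + C (bil B w2 w2) = 0 := by
    have := congrArg C hz
    simp only [map_add, map_mul, map_pow, map_neg, map_ofNat, map_zero] at this
    linear_combination this
  -- factorisation
  have hfac : (G2 - C z * G1) *
      (C (bil B w1 w1) * G2 + (C (bil B w1 w1) * C z - 2 * C (bil B w1 w2)) * G1) = 0 := by
    linear_combination hQ2 - G1 ^ 2 * hz'
  have hprop : ∃ c : k, G2 = C c * G1 := by
    rcases mul_eq_zero.1 hfac with h | h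
    · exact ⟨z, sub_eq_zero.1 h⟩
    · refine ⟨-(bil B w1 w1)⁻¹ * (bil B w1 w1 * z - 2 * bil B w1 w2), ?_⟩
      have e : C (bil B w1 w1) * C (bil B w1 w1)⁻¹ = 1 := by
        rw [← C_mul, mul_inv_cancel₀ hα, C_1]
      simp only [map_mul, map_neg, map_sub, map_ofNat]
      linear_combination C (bil B w1 w1)⁻¹ * h - G2 * e
  obtain ⟨c, hc⟩ := hprop
  rw [eG1, eG2] at hc
  have h5 : C (tri T a a w2 - c * tri T a a w1) + X * C (2 * (tri T a b w2 - c * tri T a b w1)) +
      X ^ 2 * C (tri T b b w2 - c * tri T b b w1) = 0 := by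
    simp only [map_sub, map_mul, map_ofNat]
    simp only [map_mul, map_ofNat] at hc
    linear_combination hc
  obtain ⟨e0, e1, e2⟩ := poly3 h5
  have e0' := sub_eq_zero.1 e0
  have e1' := sub_eq_zero.1 ((mul_eq_zero.1 e1).resolve_left h2)
  have e2' := sub_eq_zero.1 e2
  apply hm
  refine ⟨?_, ?_, ?_⟩
  · rw [e0', e1']; ring
  · rw [e0', e2']; ring
  · rw [e1', e2']; ring

end

end Pool.Agent.Helper97.QF
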