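import Pool.Agent.Helper97.QF.Omega

/-!
# QF: existence of a non-degenerate direction

`exists_good`: a smooth complete intersection of a quadric and a cubic in at least six variables which contains the line `a`, `b` has a basis of the line with `Good`.
-/

set_option autoImplicit false

namespace Pool.Agent.Helper97.QF

open Polynomial

/-- common zeros of few functionals outside a small subspace -/
theorem exists_ker {K : Type*} [Field K] {N m : ℕ} (f : Fin m → (Fin N → K) →ₗ[K] K)
    (S : Submodule K (Fin N → K)) (h : m + Module.finrank K S < N) :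
    ∃ w, (∀ i, f i w = 0) ∧ w ∉ S := by
  by_contra hcon
  push Not at hcon
  have hle : LinearMap.ker (LinearMap.pi f) ≤ S := by
    intro w hw
    apply hcon w
    intro i
    have := congrFun (LinearMap.mem_ker.1 hw) i
    exact this
  have h1 := LinearMap.finrank_range_add_finrank_ker (LinearMap.pi f)
  rw [Module.finrank_fin_fun] at h1
  have h2 : Module.finrank K (LinearMap.range (LinearMap.pi f)) ≤ m := by
    have := Submodule.finrank_le (LinearMap.range (LinearMap.pi f))
    rwa [Module.finrank_fin_fun] at this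
  have h3 := Submodule.finrank_mono hle
  omega

variable {k : Type*} [Field k] {N : ℕ}

/-- the functional `B(x,.)` -/
def bilL (B : Fin N → Fin N → k) {R : Type*} [CommRing R] [Algebra k R] (x : Fin N → R) :
    (Fin N → R) →ₗ[R] R where
  toFun := bil B x
  map_add' := bil_add2 B x
  map_smul' r y := by rw [bil_smul2, RingHom.id_apply, smul_eq_mul]

/-- the functional `T(x,y,.)` -/
def triL (T : Fin N → Fin N → Fin N → k) {R : Type*} [CommRing R] [Algebra k R]
    (x y : Fin N → R) : (Fin N → R) →ₗ[R] R where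
  toFun := tri T x y
  map_add' := tri_add3 T x y
  map_smul' r z := by rw [tri_smul3, RingHom.id_apply, smul_eq_mul]

theorem bilL_apply (B : Fin N → Fin N → k) {R : Type*} [CommRing R] [Algebra k R]
    (x y : Fin N → R) : bilL B x y = bil B x y := rfl

theorem triL_apply (T : Fin N → Fin N → Fin N → k) {R : Type*} [CommRing R] [Algebra k R]
    (x y z : Fin N → R) : triL T x y z = tri T x y z := rfl

section

variable {B : Fin N → Fin N → k} {T : Fin N → Fin N → Fin N → k} {a b fa fb : Fin N → k}

/-- independence of the two vectors -/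
def Ind (a b : Fin N → k) : Prop := ∃ i j, a i * b j - a j * b i ≠ 0

theorem Ind.ne_zero (h : Ind a b) {s t : k} (hst : s ≠ 0 ∨ t ≠ 0) : s • a + t • b ≠ 0 := by
  intro h0
  obtain ⟨i, j, hij⟩ := h
  have ei := congrFun h0 i
  have ej := congrFun h0 j
  simp only [Pi.add_apply, Pi.smul_apply, smul_eq_mul, Pi.zero_apply] at ei ej
  rcases hst with hs | ht
  · apply hij
    have : s * (a i * b j - a j * b i) = 0 := by linear_combination b j * ei - b i * ej
    exact (mul_eq_zero.1 this).resolve_left hs
  · apply hij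
    have : t * (a i * b j - a j * b i) = 0 := by linear_combination a i * ej - a j * ei
    exact (mul_eq_zero.1 this).resolve_left ht

/-- the line in another basis -/
theorem Line.change (hB : SymB B) (hT : SymT T) (hL : Line B T a b) (p q r s : k) :
    Line B T (p • a + q • b) (r • a + s • b) := by
  have e1 : tri T a b a = 0 := by rw [tri_s23 hT]; exact hL.c1
  have e2 : tri T b a a = 0 := by rw [tri_s12 hT]; exact e1
  have e3 : tri T b a b = 0 := by rw [tri_s12 hT]; exact hL.c2
  have e4 : tri T b b a = 0 := by rw [tri_s23 hT]; exact e3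
  constructor <;>
    simp only [bil_add1, bil_add2, bil_smul1, bil_smul2, tri_add1, tri_add2, tri_add3, tri_smul1,
      tri_smul2, tri_smul3, hL.b0, hL.b1, hL.b2, bil_symm hB b a, hL.c0, hL.c1, hL.c2, hL.c3, e1,
      e2, e3, e4] <;> ring

theorem Ind.change (h : Ind a b) (p q r s : k) (hd : p * s - q * r ≠ 0) :
    Ind (p • a + q • b) (r • a + s • b) := by
  obtain ⟨i, j, hij⟩ := h
  refine ⟨i, j, ?_⟩
  simp only [Pi.add_apply, Pi.smul_apply, smul_eq_mul]
  have e : (p * a i + q * b i) * (r * a j + s * b j) - (p * a j + q * b j) *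
      (r * a i + s * b i) = (p * s - q * r) * (a i * b j - a j * b i) := by ring
  rw [e]
  exact mul_ne_zero hd hij

/-- the functionals of the points of the line do not vanish -/
theorem smo_bil (hB : SymB B) (hT : SymT T) (hS : Smo B T) (hL : Line B T a b) (hI : Ind a b)
    {s t : k} (hst : s ≠ 0 ∨ t ≠ 0) : ∃ v, s * bil B a v + t * bil B b v ≠ 0 := by
  by_contra hcon
  push Not at hcon
  have hL' := hL.change hB hT s t s t
  have h := hS (s • a + t • b) (hI.ne_zero hst) hL'.b0 hL'.c0 1 0 (by
    intro v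
    rw [bil_add1, bil_smul1, bil_smul1, hcon v]
    ring)
  exact one_ne_zero h.1

theorem exists_dual (hB : SymB B) (hT : SymT T) (hS : Smo B T) (hL : Line B T a b)
    (hI : Ind a b) : ∃ fa fb, Dual B a b fa fb := by
  obtain ⟨v1, hv1⟩ := smo_bil hB hT hS hL hI (s := 1) (t := 0) (Or.inl one_ne_zero)
  rw [one_mul, zero_mul, add_zero] at hv1
  obtain ⟨v2, hv2⟩ := smo_bil hB hT hS hL hI (s := -(bil B b v1)) (t := bil B a v1)
    (Or.inr hv1)
  set d := -(bil B b v1) * bil B a v2 + bil B a v1 * bil B b v2 with hd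
  refine ⟨(d⁻¹ * bil B b v2) • v1 + (-(d⁻¹ * bil B b v1)) • v2,
    (-(d⁻¹ * bil B a v2)) • v1 + (d⁻¹ * bil B a v1) • v2, ?_, ?_, ?_, ?_⟩
  · rw [bil_add2, bil_smul2, bil_smul2]
    have : d⁻¹ * d = 1 := inv_mul_cancel₀ hv2
    rw [hd] at this ⊢
    linear_combination this
  · rw [bil_add2, bil_smul2, bil_smul2]
    ring
  · rw [bil_add2, bil_smul2, bil_smul2]
    ring
  · rw [bil_add2, bil_smul2, bil_smul2]
    have : d⁻¹ * d = 1 := inv_mul_cancel₀ hv2
    rw [hd] at this ⊢
    linear_combination this

theorem Orth.add {w w' : Fin N → k} (h : Orth B a b w) (h' : Orth B a b w') :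
    Orth B a b (w + w') :=
  ⟨by rw [bil_add2, h.a, h'.a, add_zero], by rw [bil_add2, h.b, h'.b, add_zero]⟩

theorem Orth.sub {w w' : Fin N → k} (h : Orth B a b w) (h' : Orth B a b w') :
    Orth B a b (w - w') :=
  ⟨by rw [bil_sub2, h.a, h'.a, sub_zero], by rw [bil_sub2, h.b, h'.b, sub_zero]⟩

theorem Orth.smul {w : Fin N → k} (h : Orth B a b w) (c : k) : Orth B a b (c • w) :=
  ⟨by rw [bil_smul2, h.a, mul_zero], by rw [bil_smul2, h.b, mul_zero]⟩

/-- decomposition of a vector -/
theorem Dual.orth (hD : Dual B a b fa fb) (v : Fin N → k) :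
    Orth B a b (v - (bil B a v) • fa - (bil B b v) • fb) := by
  constructor
  · rw [bil_sub2, bil_sub2, bil_smul2, bil_smul2, hD.aa, hD.ab]
    ring
  · rw [bil_sub2, bil_sub2, bil_smul2, bil_smul2, hD.ba, hD.bb]
    ring

/-- `B` does not vanish on the orthogonal space of the line -/
theorem not_iso [IsAlgClosed k] (h2 : (2 : k) ≠ 0) (hN : 6 ≤ N) (hB : SymB B) (hT : SymT T)
    (hS : Smo B T) (hD : Dual B a b fa fb) (h : ∀ w, Orth B a b w → bil B w w = 0) : False := by
  have hpol : ∀ w w', Orth B a b w → Orth B a b w' → bil B w w' = 0 := by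
    intro w w' hw hw'
    have e := h _ (hw.add hw')
    rw [bil_add1, bil_add2, bil_add2, h w hw, h w' hw', bil_symm hB w' w] at e
    have e' : 2 * bil B w w' = 0 := by linear_combination e
    exact (mul_eq_zero.1 e').resolve_left h2
  let f : Fin 4 → (Fin N → k) →ₗ[k] k := ![bilL B a, bilL B b, bilL B fa, bilL B fb]
  obtain ⟨w1, hw1, hn1⟩ := exists_ker f ⊥ (by rw [finrank_bot]; omega)
  obtain ⟨w2, hw2, hn2⟩ := exists_ker f (Submodule.span k {w1}) (by
    have := finrank_span_singleton (K := k) (v := w1) (fun h0 => hn1 (by rw [h0]; exact zero_mem _))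
    omega)
  have hrad : ∀ w, (∀ i, f i w = 0) → ∀ v, bil B w v = 0 := by
    intro w hw v
    have e0 : bil B a w = 0 := hw 0
    have e1 : bil B b w = 0 := hw 1
    have e2 : bil B fa w = 0 := hw 2
    have e3 : bil B fb w = 0 := hw 3
    have e := hpol w _ ⟨e0, e1⟩ (hD.orth v)
    rw [bil_sub2, bil_sub2, bil_smul2, bil_smul2, bil_symm hB w fa, bil_symm hB w fb, e2, e3] at e
    linear_combination e
  -- a zero of the cubic form on the span of `w1`, `w2`
  obtain ⟨s, t, hst, hz⟩ : ∃ s t : k, (s ≠ 0 ∨ t ≠ 0) ∧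
      tri T (s • w1 + t • w2) (s • w1 + t • w2) (s • w1 + t • w2) = 0 := by
    by_cases hc : tri T w1 w1 w1 = 0
    · refine ⟨1, 0, Or.inl one_ne_zero, ?_⟩
      rw [zero_smul, one_smul, add_zero, hc]
    · obtain ⟨z, hz⟩ := cubic_root (tri T w1 w1 w1) (3 * tri T w1 w1 w2) (3 * tri T w1 w2 w2)
        (tri T w2 w2 w2) hc
      refine ⟨z, 1, Or.inr one_ne_zero, ?_⟩
      have e1 : tri T w1 w2 w1 = tri T w1 w1 w2 := tri_s23 hT _ _ _
      have e2 : tri T w2 w1 w1 = tri T w1 w1 w2 := by rw [tri_s12 hT]; exact e1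
      have e3 : tri T w2 w1 w2 = tri T w1 w2 w2 := tri_s12 hT _ _ _
      have e4 : tri T w2 w2 w1 = tri T w1 w2 w2 := by rw [tri_s23 hT]; exact e3
      simp only [tri_add1, tri_add2, tri_add3, tri_smul1, tri_smul2, tri_smul3, e1, e2, e3, e4]
      linear_combination hz
  have hne : s • w1 + t • w2 ≠ 0 := by
    intro h0
    by_cases ht : t = 0
    · rw [ht, zero_smul, add_zero] at h0
      have hs : s ≠ 0 := by
        rcases hst with hs | hs
        · exact hs
        · exact absurd ht hs
      have : w1 = 0 := (smul_eq_zero.1 h0).resolve_left hs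
      exact hn1 (by rw [this]; exact zero_mem _)
    · apply hn2
      rw [Submodule.mem_span_singleton]
      refine ⟨-(t⁻¹ * s), ?_⟩
      have e : w2 = t⁻¹ • ((s • w1 + t • w2) - s • w1) := by
        rw [add_sub_cancel_left, smul_smul, inv_mul_cancel₀ ht, one_smul]
      rw [e, h0, zero_sub, smul_neg, smul_smul, neg_smul]
  have hall : ∀ v, bil B (s • w1 + t • w2) v = 0 := by
    intro v
    rw [bil_add1, bil_smul1, bil_smul1, hrad w1 hw1, hrad w2 hw2]
    ring
  have := hS _ hne (hall _) hz 1 0 (by intro v; rw [hall v]; ring)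
  exact one_ne_zero this.1

/-- perturbation: if `B` vanishes at the vectors with a nonzero value of `λ`, it vanishes -/
theorem perturb (h2 : (2 : k) ≠ 0) (p : (Fin N → k) → Prop) (w0 : Fin N → k)
    (hw0 : Orth B a b w0) (hp0 : p w0)
    (hp : ∀ w, ¬ p w → p (w0 + w) ∧ p (w0 - w))
    (h : ∀ w, Orth B a b w → p w → bil B w w = 0) (w : Fin N → k) (hw : Orth B a b w) :
    bil B w w = 0 := by
  by_cases hpw : p w
  · exact h w hw hpw
  · obtain ⟨hp1, hp2⟩ := hp w hpw
    have e1 := h _ (hw0.add hw) hp1
    have e2 := h _ (hw0.sub hw) hp2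
    have e0 := h _ hw0 hp0
    rw [bil_add1, bil_add2, bil_add2] at e1
    rw [bil_sub1, bil_sub2, bil_sub2] at e2
    have e : 2 * bil B w w = 0 := by linear_combination e1 + e2 - 2 * e0
    exact (mul_eq_zero.1 e).resolve_left h2

/-- some value of `Phi(l,l,w)` is different from zero -/
def NZ (T : Fin N → Fin N → Fin N → k) (a b w : Fin N → k) : Prop :=
  tri T a a w ≠ 0 ∨ tri T a b w ≠ 0 ∨ tri T b b w ≠ 0

theorem not_NZ {w : Fin N → k} (h : ¬ NZ T a b w) :
    tri T a a w = 0 ∧ tri T a b w = 0 ∧ tri T b b w = 0 := by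
  unfold NZ at h
  push Not at h
  exact h

theorem NZ_perturb {w0 : Fin N → k} (h0 : NZ T a b w0) (w : Fin N → k) (hw : ¬ NZ T a b w) :
    NZ T a b (w0 + w) ∧ NZ T a b (w0 - w) := by
  obtain ⟨e0, e1, e2⟩ := not_NZ hw
  unfold NZ
  rw [tri_add3, tri_add3, tri_add3, tri_sub3, tri_sub3, tri_sub3, e0, e1, e2, add_zero, add_zero,
    add_zero, sub_zero, sub_zero, sub_zero]
  exact ⟨h0, h0⟩

/-- all minors vanish -/
theorem O4 [IsAlgClosed k] (h2 : (2 : k) ≠ 0) (h3 : (3 : k) ≠ 0) (hN : 6 ≤ N) (hB : SymB B)
    (hT : SymT T) (hS : Smo B T) (hng : ¬ Good B T a b) (hD : Dual B a b fa fb)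
    {w1 w2 : Fin N → k} (hw1 : Orth B a b w1) (hw2 : Orth B a b w2) : Minors T a b w1 w2 := by
  by_contra hm
  have hm' : ¬ Minors T a b w2 w1 := by
    rintro ⟨e0, e1, e2⟩
    exact hm ⟨by linear_combination -e0, by linear_combination -e1, by linear_combination -e2⟩
  have hnz : NZ T a b w1 := by
    by_contra h
    obtain ⟨e0, e1, e2⟩ := not_NZ h
    apply hm
    refine ⟨?_, ?_, ?_⟩ <;> simp [e0, e1, e2]
  refine not_iso h2 hN hB hT hS hD
    (perturb h2 (NZ T a b) w1 hw1 hnz (NZ_perturb hnz) ?_)
  intro w hw hnw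
  by_cases hm1 : Minors T a b w w1
  · by_cases hm2 : Minors T a b w w2
    · -- `w1` and `w2` are proportional to `w`
      exfalso
      apply hm
      obtain ⟨p0, p1, p2⟩ := hm1
      obtain ⟨q0, q1, q2⟩ := hm2
      rcases hnw with h | h | h
      · have c1 := mul_left_cancel₀ h (show tri T a a w * (tri T a a w2 * tri T a b w1) =
          tri T a a w * (tri T a a w1 * tri T a b w2) by
            linear_combination tri T a a w1 * q0 - tri T a a w2 * p0)
        have c2 := mul_left_cancel₀ h (show tri T a a w * (tri T a a w2 * tri T b b w1) =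
          tri T a a w * (tri T a a w1 * tri T b b w2) by
            linear_combination tri T a a w1 * q1 - tri T a a w2 * p1)
        have c3 := mul_left_cancel₀ h (show tri T a a w * (tri T a b w2 * tri T b b w1) =
          tri T a a w * (tri T a b w1 * tri T b b w2) by
            linear_combination tri T a b w1 * q1 - tri T a b w2 * p1 - tri T b b w * c1)
        exact ⟨c1, c2, c3⟩
      · have c1 := mul_left_cancel₀ h (show tri T a b w * (tri T a a w2 * tri T a b w1) =
          tri T a b w * (tri T a a w1 * tri T a b w2) by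
            linear_combination tri T a b w1 * q0 - tri T a b w2 * p0)
        have c3 := mul_left_cancel₀ h (show tri T a b w * (tri T a b w2 * tri T b b w1) =
          tri T a b w * (tri T a b w1 * tri T b b w2) by
            linear_combination tri T a b w1 * q2 - tri T a b w2 * p2)
        have c2 := mul_left_cancel₀ h (show tri T a b w * (tri T a a w2 * tri T b b w1) =
          tri T a b w * (tri T a a w1 * tri T b b w2) by
            linear_combination tri T b b w1 * q0 - tri T b b w2 * p0 + tri T a a w * c3)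
        exact ⟨c1, c2, c3⟩
      · have c2 := mul_left_cancel₀ h (show tri T b b w * (tri T a a w2 * tri T b b w1) =
          tri T b b w * (tri T a a w1 * tri T b b w2) by
            linear_combination tri T b b w1 * q1 - tri T b b w2 * p1)
        have c3 := mul_left_cancel₀ h (show tri T b b w * (tri T a b w2 * tri T b b w1) =
          tri T b b w * (tri T a b w1 * tri T b b w2) by
            linear_combination tri T b b w1 * q2 - tri T b b w2 * p2)
        have c1 := mul_left_cancel₀ h (show tri T b b w * (tri T a a w2 * tri T a b w1) =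
          tri T b b w * (tri T a a w1 * tri T a b w2) by
            linear_combination tri T a b w1 * q1 - tri T a b w2 * p1 - tri T a a w * c3)
        exact ⟨c1, c2, c3⟩
    · exact O2 h2 h3 hB hT hng hD hw hw2 hm2
  · exact O2 h2 h3 hB hT hng hD hw hw1 hm1

end

end Pool.Agent.Helper97.QF
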