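import Pool.Agent.Helper97.QF.Omega2

/-!
# QF: smooth complete intersections of a quadric and a cubic with a line contain a rational surface
-/

set_option autoImplicit false

namespace Pool.Agent.Helper97.QF

open Polynomial Pool.Agent.Helper72.QT

variable {k : Type*} [Field k] {N : ℕ} {B : Fin N → Fin N → k} {T : Fin N → Fin N → Fin N → k}
  {a b fa fb : Fin N → k}

theorem tri_zz (hT : SymT T) (a b w : Fin N → k) (s t : k) :
    tri T (s • a + t • b) (s • a + t • b) w =
      s ^ 2 * tri T a a w + 2 * s * t * tri T a b w + t ^ 2 * tri T b b w := by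
  have e : tri T b a w = tri T a b w := tri_s12 hT _ _ _
  simp only [tri_add1, tri_add2, tri_smul1, tri_smul2, e]
  ring

/-- the value of a functional which vanishes on the orthogonal space -/
theorem Dual.value (hD : Dual B a b fa fb) (z : Fin N → k)
    (h : ∀ w, Orth B a b w → tri T z z w = 0) (v : Fin N → k) :
    tri T z z v = bil B a v * tri T z z fa + bil B b v * tri T z z fb := by
  have e := h _ (hD.orth v)
  rw [tri_sub3, tri_sub3, tri_smul3, tri_smul3] at e
  linear_combination e

/-- the values on the orthogonal space cannot all vanish -/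
theorem lemB [IsAlgClosed k] (hB : SymB B) (hT : SymT T) (hS : Smo B T) (hL : Line B T a b)
    (hI : Ind a b) (hD : Dual B a b fa fb) (h : ∀ w, Orth B a b w → ¬ NZ T a b w) : False := by
  have hz : ∀ (s t : k) (w : Fin N → k), Orth B a b w →
      tri T (s • a + t • b) (s • a + t • b) w = 0 := by
    intro s t w hw
    obtain ⟨e0, e1, e2⟩ := not_NZ (h w hw)
    rw [tri_zz hT, e0, e1, e2]
    ring
  obtain ⟨s, t, hst, he⟩ : ∃ s t : k, (s ≠ 0 ∨ t ≠ 0) ∧
      s * tri T (s • a + t • b) (s • a + t • b) fb =
        t * tri T (s • a + t • b) (s • a + t • b) fa := by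
    by_cases hc : tri T a a fb = 0
    · refine ⟨1, 0, Or.inl one_ne_zero, ?_⟩
      rw [tri_zz hT, hc]
      ring
    · obtain ⟨z, hz⟩ := cubic_root (tri T a a fb) (2 * tri T a b fb - tri T a a fa)
        (tri T b b fb - 2 * tri T a b fa) (-tri T b b fa) hc
      refine ⟨z, 1, Or.inr one_ne_zero, ?_⟩
      rw [tri_zz hT, tri_zz hT]
      linear_combination hz
  set z := s • a + t • b with hzd
  obtain ⟨c, hc1, hc2⟩ : ∃ c : k, tri T z z fa = c * s ∧ tri T z z fb = c * t := by
    rcases hst with hs | ht
    · refine ⟨tri T z z fa / s, by field_simp, ?_⟩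
      field_simp
      linear_combination he
    · refine ⟨tri T z z fb / t, ?_, by field_simp⟩
      field_simp
      linear_combination -he
  have hL' := hL.change hB hT s t s t
  have hres := hS z (hI.ne_zero hst) hL'.b0 hL'.c0 (-c) 1 (by
    intro v
    rw [hD.value z (hz s t) v, hc1, hc2, hzd, bil_add1, bil_smul1, bil_smul1]
    ring)
  exact one_ne_zero hres.2

/-- `B` vanishes at the vectors with a nonzero value, if the first value is always zero -/
theorem O5 (hT : SymT T) (h2 : (2 : k) ≠ 0)
    (hng : ¬ Good B T a b) (hD : Dual B a b fa fb) (hq : tri T a a fb ≠ 0) {w : Fin N → k}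
    (hw : Orth B a b w) (h0 : tri T a a w = 0) (hnz : tri T a b w ≠ 0 ∨ tri T b b w ≠ 0) :
    bil B w w = 0 := by
  set x : Fin N → k[X] := pt a b X with hx
  set G : k[X] := tri T x x (cst k[X] w) with hG
  set D : k[X] := tri T x x (ff fa fb) with hDd
  have eG : G = C 0 + X * C (2 * tri T a b w) + X ^ 2 * C (tri T b b w) := by
    rw [hG, hx, tri_xx_cst hT, h0]
    simp only [algebraMap_eq, map_mul, map_ofNat]
  have hG0 : G ≠ 0 := by
    intro hG0
    rw [hG0] at eG
    obtain ⟨-, e1, e2⟩ := poly3 eG.symm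
    rcases hnz with h | h
    · exact h ((mul_eq_zero.1 e1).resolve_left h2)
    · exact h e2
  set u : Fin N → k[X] := D • cst k[X] w - G • ff fa fb with hu
  have hbu : bil B (cst k[X] b) u = -G := by
    rw [hu, bil_sub2, bil_smul2, bil_smul2, bil_b_orth hw, bil_b_ff hD]
    ring
  have hOm : Om B T x (cst k[X] b) u = 0 := by
    by_contra hne
    refine hng ⟨u, ?_, ?_, ?_, hne⟩
    · rw [hu, bil_sub2, bil_smul2, bil_smul2, bil_x_orth hw, bil_x_ff hD]
      ring
    · rw [hu, tri_sub3, tri_smul3, tri_smul3, ← hx, ← hG, ← hDd]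
      ring
    · rw [hbu]
      exact neg_ne_zero.2 hG0
  let ev : k[X] →ₐ[k] k := Polynomial.aeval (0 : k)
  have evX : ev X = 0 := by simp [ev]
  have hevx : (fun i => ev (x i)) = a := by
    rw [hx, pt_map, evX]
    funext i
    simp [pt, cst]
  have hevb : (fun i => ev (cst k[X] b i)) = b := cst_map ev b
  have hevw : (fun i => ev (cst k[X] w i)) = w := cst_map ev w
  have hevG : ev G = 0 := by
    rw [eG]
    simp [ev]
  have hevf : (fun i => ev (ff fa fb i)) = fb := by
    funext i
    have : ev (ff fa fb i) = fb i - ev X * fa i := by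
      simp only [ff, Pi.sub_apply, Pi.smul_apply, smul_eq_mul, cst, map_sub, map_mul,
        AlgHom.commutes, Algebra.algebraMap_self, RingHom.id_apply]
    rw [this, evX]
    ring
  have hevD : ev D = tri T a a fb := by
    rw [hDd, ← tri_map, hevx, hevf]
  have hevu : (fun i => ev (u i)) = tri T a a fb • w := by
    funext i
    have e1 : ev (cst k[X] w i) = w i := congrFun hevw i
    simp only [hu, Pi.sub_apply, Pi.smul_apply, smul_eq_mul, map_sub, map_mul, hevG, hevD, e1]
    ring
  have hQu : ev (bil B u u) = tri T a a fb * (tri T a a fb * bil B w w) := by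
    rw [← bil_map, hevu, bil_smul1, bil_smul2]
  by_cases h1 : tri T a b w = 0
  · have h2' : tri T b b w ≠ 0 := by
      rcases hnz with h | h
      · exact absurd h1 h
      · exact h
    -- divide by `X`
    have hM : tri T x (cst k[X] b) (cst k[X] w) = X * C (tri T b b w) := by
      rw [hx, tri_xb_cst, h1]
      simp
    have hG' : G = X * (X * C (tri T b b w)) := by
      rw [eG, h1]
      simp
      ring
    have e : X * (X * C (tri T b b w) * tri T x u u +
        bil B u u * (D * C (tri T b b w) - X * C (tri T b b w) *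
          tri T x (cst k[X] b) (ff fa fb))) = 0 := by
      have e1 : tri T x (cst k[X] b) u = D * (X * C (tri T b b w)) -
          X * (X * C (tri T b b w)) * tri T x (cst k[X] b) (ff fa fb) := by
        rw [hu, tri_sub3, tri_smul3, tri_smul3, hM, hG']
      rw [Om, hbu, hG', e1] at hOm
      linear_combination -hOm
    have e2 := congrArg ev ((mul_eq_zero.1 e).resolve_left X_ne_zero)
    simp only [map_add, map_sub, map_mul, evX, hevD, hQu, map_zero, zero_mul, sub_zero,
      zero_add] at e2
    have e3 : ev (C (tri T b b w)) = tri T b b w := by simp [ev]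
    rw [e3] at e2
    have e4 := (mul_eq_zero.1 e2).resolve_right (mul_ne_zero hq h2')
    exact (mul_eq_zero.1 ((mul_eq_zero.1 e4).resolve_left hq)).resolve_left hq
  · have e := congrArg ev hOm
    rw [← Om_map, hevx, hevb, hevu, map_zero, Om] at e
    simp only [bil_smul1, bil_smul2, tri_smul2, tri_smul3, hw.b] at e
    have e' : (tri T a a fb * tri T a a fb * tri T a a fb * tri T a b w) * bil B w w = 0 := by
      linear_combination -e
    exact (mul_eq_zero.1 e').resolve_left
      (mul_ne_zero (mul_ne_zero (mul_ne_zero hq hq) hq) h1)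

/-- a basis of the line with zero first value is impossible -/
theorem lemA [IsAlgClosed k] (h2 : (2 : k) ≠ 0) (hN : 6 ≤ N) (hB : SymB B) (hT : SymT T)
    (hS : Smo B T) (hL : Line B T a b) (hI : Ind a b) (hng : ¬ Good B T a b)
    (hD : Dual B a b fa fb) (h0 : ∀ w, Orth B a b w → tri T a a w = 0) : False := by
  have ha : a ≠ 0 := by
    have := hI.ne_zero (s := 1) (t := 0) (Or.inl one_ne_zero)
    rwa [one_smul, zero_smul, add_zero] at this
  have hq : tri T a a fb ≠ 0 := by
    intro hq
    have hres := hS a ha hL.b0 hL.c0 (-(tri T a a fa)) 1 (by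
      intro v
      rw [hD.value a h0 v, hq]
      ring)
    exact one_ne_zero hres.2
  by_cases hex : ∃ w0, Orth B a b w0 ∧ NZ T a b w0
  · obtain ⟨w0, hw0, hnz⟩ := hex
    refine not_iso h2 hN hB hT hS hD (perturb h2 (NZ T a b) w0 hw0 hnz (NZ_perturb hnz) ?_)
    intro w hw hnw
    refine O5 hT h2 hng hD hq hw (h0 w hw) ?_
    rcases hnw with h | h | h
    · exact absurd (h0 w hw) h
    · exact Or.inl h
    · exact Or.inr h
  · exact lemB hB hT hS hL hI hD (fun w hw hnz => hex ⟨w, hw, hnz⟩)

/-- orthogonality in another basis -/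
theorem Orth.back {p q r s : k} (hd : p * s - q * r ≠ 0) {w : Fin N → k}
    (h : Orth B (p • a + q • b) (r • a + s • b) w) : Orth B a b w := by
  have e1 := h.a
  have e2 := h.b
  rw [bil_add1, bil_smul1, bil_smul1] at e1 e2
  constructor
  · have : (p * s - q * r) * bil B a w = 0 := by linear_combination s * e1 - q * e2
    exact (mul_eq_zero.1 this).resolve_left hd
  · have : (p * s - q * r) * bil B b w = 0 := by linear_combination p * e2 - r * e1
    exact (mul_eq_zero.1 this).resolve_left hd

/-- existence of a basis of the line with a non-degenerate direction -/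
theorem exists_good [IsAlgClosed k] (h2 : (2 : k) ≠ 0) (h3 : (3 : k) ≠ 0) (hN : 6 ≤ N)
    (hB : SymB B) (hT : SymT T) (hS : Smo B T) (hL : Line B T a b) (hI : Ind a b) :
    ∃ a' b', Line B T a' b' ∧ Ind a' b' ∧ Good B T a' b' := by
  by_contra hcon
  have hng : ∀ a' b', Line B T a' b' → Ind a' b' → ¬ Good B T a' b' :=
    fun a' b' h h' hg => hcon ⟨a', b', h, h', hg⟩
  obtain ⟨fa, fb, hD⟩ := exists_dual hB hT hS hL hI
  by_cases hex : ∃ w0, Orth B a b w0 ∧ NZ T a b w0
  · obtain ⟨w0, hw0, hnz⟩ := hex
    obtain ⟨s, t, hst, he⟩ : ∃ s t : k, (s ≠ 0 ∨ t ≠ 0) ∧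
        s ^ 2 * tri T a a w0 + 2 * s * t * tri T a b w0 + t ^ 2 * tri T b b w0 = 0 := by
      by_cases hc : tri T a a w0 = 0
      · refine ⟨1, 0, Or.inl one_ne_zero, ?_⟩
        rw [hc]
        ring
      · obtain ⟨z, hz⟩ := quad_root (tri T a a w0) (2 * tri T a b w0) (tri T b b w0) hc
        refine ⟨z, 1, Or.inr one_ne_zero, ?_⟩
        linear_combination hz
    obtain ⟨r, m, hd⟩ : ∃ r m : k, s * m - t * r ≠ 0 := by
      rcases hst with hs | ht
      · exact ⟨0, 1, by simpa using hs⟩
      · exact ⟨1, 0, by simpa using ht⟩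
    have hL' := hL.change hB hT s t r m
    have hI' := hI.change s t r m hd
    obtain ⟨fa', fb', hD'⟩ := exists_dual hB hT hS hL' hI'
    refine lemA h2 hN hB hT hS hL' hI' (hng _ _ hL' hI') hD' ?_
    intro w hw'
    have hw : Orth B a b w := Orth.back hd hw'
    obtain ⟨e0, e1, e2⟩ := O4 h2 h3 hN hB hT hS (hng _ _ hL hI) hD hw0 hw
    rw [tri_zz hT]
    rcases hnz with h | h | h
    · refine mul_left_cancel₀ h ?_
      linear_combination tri T a a w * he - 2 * s * t * e0 - t ^ 2 * e1
    · refine mul_left_cancel₀ h ?_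
      linear_combination tri T a b w * he + s ^ 2 * e0 - t ^ 2 * e2
    · refine mul_left_cancel₀ h ?_
      linear_combination tri T b b w * he + s ^ 2 * e1 + 2 * s * t * e2
  · exact lemB hB hT hS hL hI hD (fun w hw hnz => hex ⟨w, hw, hnz⟩)

/-- a smooth complete intersection of a quadric and a cubic which contains a line contains a
rational surface -/
theorem contRat_of_line [IsAlgClosed k] (h2 : (2 : k) ≠ 0) (h3 : (3 : k) ≠ 0) (hN : 6 ≤ N)
    (hB : SymB B) (hT : SymT T) (hS : Smo B T) (hL : Line B T a b) (hI : Ind a b) :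
    ContRat B T := by
  obtain ⟨a', b', hL', ⟨i, j, hij⟩, P, hP1, hP2, hP3, hP4⟩ :=
    exists_good h2 h3 hN hB hT hS hL hI
  let f : k[X] →ₐ[k] RatFunc k := IsScalarTower.toAlgHom k k[X] (RatFunc k)
  have hf : Function.Injective f := RatFunc.algebraMap_injective k
  have hfX : f X = RatFunc.X := RatFunc.algebraMap_X
  have hpt : (fun i => f (pt a' b' X i)) = pt a' b' RatFunc.X := by rw [pt_map, hfX]
  have hcb : (fun i => f (cst k[X] b' i)) = cst (RatFunc k) b' := cst_map f b'
  let g : Fin 3 → (Fin N → RatFunc k) →ₗ[RatFunc k] RatFunc k :=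
    ![bilL B (pt a' b' RatFunc.X), triL T (pt a' b' RatFunc.X) (pt a' b' RatFunc.X),
      bilL B (cst (RatFunc k) b')]
  obtain ⟨Q, hQ, hnQ⟩ := exists_ker g
    (Submodule.span (RatFunc k) (Set.range ![cst (RatFunc k) a', cst (RatFunc k) b'])) (by
      have := finrank_range_le_card (R := RatFunc k) ![cst (RatFunc k) a', cst (RatFunc k) b']
      rw [Fintype.card_fin] at this
      have h' : Module.finrank (RatFunc k) (Submodule.span (RatFunc k)
        (Set.range ![cst (RatFunc k) a', cst (RatFunc k) b'])) ≤ 2 := this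
      omega)
  refine contRat_of h2 h3 hB hT hL' i j hij (fun l => f (P l)) Q ?_ ?_ ?_ ?_ (hQ 0) (hQ 1) (hQ 2)
    ?_
  · rw [← hpt, bil_map, hP1, map_zero]
  · rw [← hpt, tri_map, hP2, map_zero]
  · rw [← hcb, bil_map]
    intro h
    exact hP3 (hf (by rw [h, map_zero]))
  · rw [← hpt, ← hcb, Om_map]
    intro h
    exact hP4 (hf (by rw [h, map_zero]))
  · intro α β h
    apply hnQ
    rw [h]
    refine add_mem (Submodule.smul_mem _ _ (Submodule.subset_span ⟨0, rfl⟩))
      (Submodule.smul_mem _ _ (Submodule.subset_span ⟨1, rfl⟩))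

end Pool.Agent.Helper97.QF
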