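import Pool.Agent.Helper97.QF.Defs

/-!
# QF: the surface of residual points

`x = a + t b` a point of the line, `u` with `B(x,u) = T(x,x,u) = 0`, `v = B(u,u) b - 2 B(b,u) u`, `y = T(v,v,v) x - 3 T(x,v,v) v`.
-/

set_option autoImplicit false

namespace Pool.Agent.Helper97.QF

open Polynomial Pool.Agent.Helper72.QT

variable {k : Type*} [Field k] {N : ℕ}

/-- the point `a + t b` over the algebra `R` -/
def pt {R : Type*} [CommRing R] [Algebra k R] (a b : Fin N → k) (t : R) : Fin N → R :=
  cst R a + t • cst R b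

/-- `Om = B(b,u) T(x,u,u) - B(u,u) T(x,b,u)` -/
def Om {R : Type*} [CommRing R] [Algebra k R] (B : Fin N → Fin N → k)
    (T : Fin N → Fin N → Fin N → k) (x b u : Fin N → R) : R :=
  bil B b u * tri T x u u - bil B u u * tri T x b u

/-- the isotropic vector `B(u,u) b - 2 B(b,u) u` -/
def vv {R : Type*} [CommRing R] [Algebra k R] (B : Fin N → Fin N → k) (b u : Fin N → R) :
    Fin N → R := bil B u u • b - (2 * bil B b u) • u

/-- the residual point -/
def yy {R : Type*} [CommRing R] [Algebra k R] (B : Fin N → Fin N → k)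
    (T : Fin N → Fin N → Fin N → k) (x b u : Fin N → R) : Fin N → R :=
  tri T (vv B b u) (vv B b u) (vv B b u) • x -
    (3 * tri T x (vv B b u) (vv B b u)) • vv B b u

section identities

variable {R : Type*} [CommRing R] [Algebra k R] {B : Fin N → Fin N → k}
  {T : Fin N → Fin N → Fin N → k}

theorem pt_map {S : Type*} [CommRing S] [Algebra k S] (g : R →ₐ[k] S) (a b : Fin N → k) (t : R) :
    (fun i => g (pt a b t i)) = pt a b (g t) := by
  funext i
  simp only [pt, cst, Pi.add_apply, Pi.smul_apply, smul_eq_mul, map_add, map_mul]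
  rw [g.commutes, g.commutes]

theorem bil_xx (hB : SymB B) {a b : Fin N → k} (hL : Line B T a b) (t : R) :
    bil B (pt a b t) (pt a b t) = 0 := by
  simp only [pt, bil_add1, bil_add2, bil_smul1, bil_smul2, bil_cst, hL.b0, hL.b1, hL.b2,
    bil_symm hB b a, map_zero]
  ring

theorem bil_xb {a b : Fin N → k} (hL : Line B T a b) (t : R) :
    bil B (pt a b t) (cst R b) = 0 := by
  simp only [pt, bil_add1, bil_smul1, bil_cst, hL.b1, hL.b2, map_zero]
  ring

theorem tri_xxx (hT : SymT T) {a b : Fin N → k} (hL : Line B T a b) (t : R) :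
    tri T (pt a b t) (pt a b t) (pt a b t) = 0 := by
  have e1 : tri T a b a = 0 := by rw [tri_s23 hT]; exact hL.c1
  have e2 : tri T b a a = 0 := by rw [tri_s12 hT]; exact e1
  have e3 : tri T b a b = 0 := by rw [tri_s12 hT]; exact hL.c2
  have e4 : tri T b b a = 0 := by rw [tri_s23 hT]; exact e3
  simp only [pt, tri_add1, tri_add2, tri_add3, tri_smul1, tri_smul2, tri_smul3, tri_cst, hL.c0,
    hL.c1, hL.c2, hL.c3, e1, e2, e3, e4, map_zero]
  ring

theorem tri_xxb (hT : SymT T) {a b : Fin N → k} (hL : Line B T a b) (t : R) :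
    tri T (pt a b t) (pt a b t) (cst R b) = 0 := by
  have e3 : tri T b a b = 0 := by rw [tri_s12 hT]; exact hL.c2
  simp only [pt, tri_add1, tri_add2, tri_smul1, tri_smul2, tri_cst, hL.c1, hL.c2, hL.c3, e3,
    map_zero]
  ring

theorem tri_xbb {a b : Fin N → k} (hL : Line B T a b) (t : R) :
    tri T (pt a b t) (cst R b) (cst R b) = 0 := by
  simp only [pt, tri_add1, tri_smul1, tri_cst, hL.c2, hL.c3, map_zero]
  ring

theorem bil_x_vv {x b u : Fin N → R} (hxb : bil B x b = 0) (hxu : bil B x u = 0) :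
    bil B x (vv B b u) = 0 := by
  rw [vv, bil_sub2, bil_smul2, bil_smul2, hxb, hxu]
  ring

theorem bil_vv_vv (hB : SymB B) {b u : Fin N → R} (hbb : bil B b b = 0) :
    bil B (vv B b u) (vv B b u) = 0 := by
  simp only [vv, bil_sub1, bil_sub2, bil_smul1, bil_smul2, hbb, bil_symm hB u b]
  ring

theorem tri_xx_vv {x b u : Fin N → R} (hxb : tri T x x b = 0) (hxu : tri T x x u = 0) :
    tri T x x (vv B b u) = 0 := by
  rw [vv, tri_sub3, tri_smul3, tri_smul3, hxb, hxu]
  ring

/-- `T(x,v,v) = 4 B(b,u) Om(u)` -/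
theorem tri_x_vv_vv (hT : SymT T) {x b u : Fin N → R} (hxbb : tri T x b b = 0) :
    tri T x (vv B b u) (vv B b u) = 4 * bil B b u * Om B T x b u := by
  simp only [vv, tri_sub2, tri_sub3, tri_smul2, tri_smul3, hxbb, tri_s23 hT x u b, Om]
  ring

theorem bil_y_y (hB : SymB B) {x b u : Fin N → R} (hxx : bil B x x = 0) (hxb : bil B x b = 0)
    (hbb : bil B b b = 0) (hxu : bil B x u = 0) : bil B (yy B T x b u) (yy B T x b u) = 0 := by
  simp only [yy, bil_sub1, bil_sub2, bil_smul1, bil_smul2, hxx, bil_vv_vv hB hbb,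
    bil_symm hB (vv B b u) x, bil_x_vv hxb hxu]
  ring

theorem tri_y_y_y (hT : SymT T) {x b u : Fin N → R} (hxxx : tri T x x x = 0)
    (hxxb : tri T x x b = 0) (hxxu : tri T x x u = 0) :
    tri T (yy B T x b u) (yy B T x b u) (yy B T x b u) = 0 := by
  have h1 : tri T x x (vv B b u) = 0 := tri_xx_vv hxxb hxxu
  have h2 : tri T x (vv B b u) x = 0 := by rw [tri_s23 hT]; exact h1
  have h3 : tri T (vv B b u) x x = 0 := by rw [tri_s12 hT]; exact h2
  have h4 : tri T (vv B b u) x (vv B b u) = tri T x (vv B b u) (vv B b u) := tri_s12 hT _ _ _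
  have h5 : tri T (vv B b u) (vv B b u) x = tri T x (vv B b u) (vv B b u) := by
    rw [tri_s23 hT, h4]
  simp only [yy, tri_sub1, tri_sub2, tri_sub3, tri_smul1, tri_smul2, tri_smul3, hxxx, h1, h2, h3,
    h4, h5]
  ring

/-- the value of a functional which vanishes on `x` and `b` at the residual point -/
theorem yy_eq (x b u : Fin N → R) :
    yy B T x b u = tri T (vv B b u) (vv B b u) (vv B b u) • x -
      (3 * tri T x (vv B b u) (vv B b u) * bil B u u) • b +
      (6 * tri T x (vv B b u) (vv B b u) * bil B b u) • u := by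
  rw [yy]
  conv_lhs => rw [show (3 * tri T x (vv B b u) (vv B b u)) • vv B b u =
    (3 * tri T x (vv B b u) (vv B b u)) • (bil B u u • b - (2 * bil B b u) • u) from rfl]
  rw [smul_sub, smul_smul, smul_smul]
  have : (3 * tri T x (vv B b u) (vv B b u)) * (2 * bil B b u) =
      6 * tri T x (vv B b u) (vv B b u) * bil B b u := by ring
  rw [this]
  abel

end identities

end Pool.Agent.Helper97.QF
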