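import Pool.Agent.Helper97.QF.Surf

/-!
# QF: the coordinates of the residual point generate the function field

`P`, `Q` over `k(t)` with `B(x,P) = T(x,x,P) = 0 = B(x,Q) = T(x,x,Q) = B(b,Q)`, `B(b,P) Om(P) ≠ 0` and `Q` not in the span of `a`, `b`. Put `u = P + s Q`. Then
`y = A x - C b + D u` with `D ≠ 0`, `B(x,y) = 0` gives `t` and the functionals vanishing on `a`, `b` give `s`.
-/

set_option autoImplicit false

namespace Pool.Agent.Helper97.QF

open Polynomial Pool.Agent.Helper72.QT

variable {k : Type*} [Field k] {N : ℕ}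

/-- a vector of functionals which vanish on `a` and `b` -/
def dl {R : Type*} [CommRing R] [Algebra k R] (a b : Fin N → k) (i j : Fin N) (w : Fin N → R) :
    Fin N → R :=
  algebraMap k R (a i * b j - a j * b i) • w -
    (algebraMap k R (b j) * w i - algebraMap k R (b i) * w j) • cst R a -
    (algebraMap k R (a i) * w j - algebraMap k R (a j) * w i) • cst R b

section dl

variable {R : Type*} [CommRing R] [Algebra k R]

theorem dl_add (a b : Fin N → k) (i j : Fin N) (w w' : Fin N → R) :
    dl a b i j (w + w') = dl a b i j w + dl a b i j w' := by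
  funext l
  simp only [dl, Pi.add_apply, Pi.sub_apply, Pi.smul_apply, smul_eq_mul]
  ring

theorem dl_smul (a b : Fin N → k) (i j : Fin N) (r : R) (w : Fin N → R) :
    dl a b i j (r • w) = r • dl a b i j w := by
  funext l
  simp only [dl, Pi.sub_apply, Pi.smul_apply, smul_eq_mul]
  ring

theorem dl_a (a b : Fin N → k) (i j : Fin N) : dl a b i j (cst R a) = 0 := by
  funext l
  simp only [dl, cst, Pi.sub_apply, Pi.smul_apply, smul_eq_mul, map_sub, map_mul, Pi.zero_apply]
  ring

theorem dl_b (a b : Fin N → k) (i j : Fin N) : dl a b i j (cst R b) = 0 := by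
  funext l
  simp only [dl, cst, Pi.sub_apply, Pi.smul_apply, smul_eq_mul, map_sub, map_mul, Pi.zero_apply]
  ring

theorem dl_pt (a b : Fin N → k) (i j : Fin N) (t : R) : dl a b i j (pt a b t) = 0 := by
  rw [pt, dl_add, dl_smul, dl_a, dl_b]
  simp

theorem dl_map {S : Type*} [CommRing S] [Algebra k S] (g : R →ₐ[k] S) (a b : Fin N → k)
    (i j : Fin N) (w : Fin N → R) (l : Fin N) :
    dl a b i j (fun m => g (w m)) l = g (dl a b i j w l) := by
  simp only [dl, cst, Pi.sub_apply, Pi.smul_apply, smul_eq_mul, map_sub, map_mul, AlgHom.commutes]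

end dl

theorem Om_map {R S : Type*} [CommRing R] [Algebra k R] [CommRing S] [Algebra k S]
    (B : Fin N → Fin N → k) (T : Fin N → Fin N → Fin N → k) (g : R →ₐ[k] S) (x b u : Fin N → R) :
    Om B T (fun i => g (x i)) (fun i => g (b i)) (fun i => g (u i)) = g (Om B T x b u) := by
  simp only [Om, bil_map, tri_map, map_sub, map_mul]

/-- values of linear functionals with constant coefficients -/
theorem lin_mem (y : Fin N → KK k) (i : Fin N) (hi : y i ≠ 0) (c : Fin N → k) :
    (∑ j, algebraMap k (KK k) (c j) * y j) / y i ∈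
      IntermediateField.adjoin k (Set.range fun j => y j / y i) := by
  classical
  have h := ratio_mem y i hi c (Pi.single i 1)
  have e : (∑ j, algebraMap k (KK k) ((Pi.single i (1 : k) : Fin N → k) j) * y j) = y i := by
    rw [Finset.sum_eq_single i]
    · rw [Pi.single_eq_same, map_one, one_mul]
    · intro j _ hj
      rw [Pi.single_eq_of_ne hj, map_zero, zero_mul]
    · intro hn
      exact absurd (Finset.mem_univ i) hn
  rwa [e] at h

theorem bil_mem (B : Fin N → Fin N → k) (y : Fin N → KK k) (i : Fin N) (hi : y i ≠ 0)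
    (c : Fin N → k) : bil B (cst (KK k) c) y / y i ∈
      IntermediateField.adjoin k (Set.range fun j => y j / y i) := by
  have e : bil B (cst (KK k) c) y = ∑ j, algebraMap k (KK k) (∑ l, B l j * c l) * y j := by
    unfold bil
    rw [Finset.sum_comm]
    refine Finset.sum_congr rfl fun j _ => ?_
    rw [map_sum, Finset.sum_mul]
    refine Finset.sum_congr rfl fun l _ => ?_
    rw [map_mul, cst]
  rw [e]
  exact lin_mem y i hi _

theorem dl_mem (a b : Fin N → k) (i j : Fin N) (y : Fin N → KK k) (i0 : Fin N) (hi : y i0 ≠ 0)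
    (l : Fin N) : dl a b i j y l / y i0 ∈
      IntermediateField.adjoin k (Set.range fun j => y j / y i0) := by
  have e : dl a b i j y l / y i0 = algebraMap k (KK k) (a i * b j - a j * b i) * (y l / y i0) -
      (algebraMap k (KK k) (b j) * (y i / y i0) - algebraMap k (KK k) (b i) * (y j / y i0)) *
        algebraMap k (KK k) (a l) -
      (algebraMap k (KK k) (a i) * (y j / y i0) - algebraMap k (KK k) (a j) * (y i / y i0)) *
        algebraMap k (KK k) (b l) := by
    simp only [dl, cst, Pi.sub_apply, Pi.smul_apply, smul_eq_mul]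
    field_simp
  have hy : ∀ m, y m / y i0 ∈ IntermediateField.adjoin k (Set.range fun j => y j / y i0) :=
    fun m => IntermediateField.subset_adjoin _ _ ⟨m, rfl⟩
  have hc : ∀ c : k, algebraMap k (KK k) c ∈
      IntermediateField.adjoin k (Set.range fun j => y j / y i0) :=
    fun c => IntermediateField.algebraMap_mem _ _
  rw [e]
  exact sub_mem (sub_mem (mul_mem (hc _) (hy _))
    (mul_mem (sub_mem (mul_mem (hc _) (hy _)) (mul_mem (hc _) (hy _))) (hc _)))
    (mul_mem (sub_mem (mul_mem (hc _) (hy _)) (mul_mem (hc _) (hy _))) (hc _))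

/-- the embedding of `k(t)` -/
noncomputable def upA (k : Type*) [Field k] : RatFunc k →ₐ[k] KK k :=
  IsScalarTower.toAlgHom k (RatFunc k) (KK k)

theorem upA_inj : Function.Injective (upA k) := (upA k : RatFunc k →+* KK k).injective

theorem upA_X : upA k RatFunc.X = tt k := rfl

/-- elements of `k(t)` lie in every intermediate field which contains `t` -/
theorem upA_mem (L : IntermediateField k (KK k)) (ht : tt k ∈ L) (z : RatFunc k) :
    upA k z ∈ L := by
  have h1 : ∀ p : k[X], upA k (algebraMap k[X] (RatFunc k) p) ∈ L := by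
    intro p
    induction p using Polynomial.induction_on' with
    | add p q hp hq =>
      rw [map_add, map_add]
      exact add_mem hp hq
    | monomial n a =>
      rw [← C_mul_X_pow_eq_monomial, map_mul, map_mul, map_pow, map_pow]
      refine mul_mem ?_ (pow_mem ?_ n)
      · have e1 : algebraMap k[X] (RatFunc k) (C a) = algebraMap k (RatFunc k) a := rfl
        rw [e1, AlgHom.commutes]
        exact L.algebraMap_mem a
      · rw [RatFunc.algebraMap_X, upA_X]
        exact ht
  rw [← RatFunc.num_div_denom z, map_div₀]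
  exact div_mem (h1 _) (h1 _)

/-- the vector `P + s Q` -/
noncomputable def uu (P Q : Fin N → RatFunc k) : Fin N → KK k :=
  (fun i => upA k (P i)) + ss k • (fun i => upA k (Q i))

/-- a quantity which is polynomial in `s` does not vanish if it does not vanish at `s = 0` -/
theorem Om_uu (B : Fin N → Fin N → k) (T : Fin N → Fin N → Fin N → k) (a b : Fin N → k)
    (P Q : Fin N → RatFunc k) (h : Om B T (pt a b RatFunc.X) (cst (RatFunc k) b) P ≠ 0) :
    Om B T (pt a b (tt k)) (cst (KK k) b) (uu P Q) ≠ 0 := by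
  have e : IsScalarTower k (RatFunc k)[X] (KK k) := inferInstance
  let f : (RatFunc k)[X] →ₐ[k] KK k := IsScalarTower.toAlgHom k (RatFunc k)[X] (KK k)
  let g : (RatFunc k)[X] →ₐ[k] RatFunc k := (Polynomial.aeval (0 : RatFunc k)).restrictScalars k
  let w : Fin N → (RatFunc k)[X] := fun i => C (P i) + X * C (Q i)
  have hw1 : (fun i => f (w i)) = uu P Q := by
    funext i
    change algebraMap (RatFunc k)[X] (KK k) (C (P i) + X * C (Q i)) = upA k (P i) +
      ss k * upA k (Q i)
    rw [map_add, map_mul, RatFunc.algebraMap_X]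
    rfl
  have hw2 : (fun i => g (w i)) = P := by
    funext i
    change Polynomial.aeval (0 : RatFunc k) (C (P i) + X * C (Q i)) = P i
    simp
  have hf : f (C (RatFunc.X : RatFunc k)) = tt k := rfl
  have hg : g (C (RatFunc.X : RatFunc k)) = RatFunc.X := by
    change Polynomial.aeval (0 : RatFunc k) (C (RatFunc.X : RatFunc k)) = _
    simp
  have h1 := Om_map B T f (pt a b (C (RatFunc.X : RatFunc k))) (cst _ b) w
  have h2 := Om_map B T g (pt a b (C (RatFunc.X : RatFunc k))) (cst _ b) w
  rw [pt_map, cst_map, hw1, hf] at h1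
  rw [pt_map, cst_map, hw2, hg] at h2
  rw [h1]
  intro h0
  have h3 : Om B T (pt a b (C (RatFunc.X : RatFunc k))) (cst _ b) w = 0 := by
    apply RatFunc.algebraMap_injective (RatFunc k)
    rw [map_zero]
    exact h0
  rw [h3, map_zero] at h2
  exact h h2

/-- the surface of residual points is rational -/
theorem contRat_of (h2 : (2 : k) ≠ 0) (h3 : (3 : k) ≠ 0) {B : Fin N → Fin N → k}
    {T : Fin N → Fin N → Fin N → k} (hB : SymB B) (hT : SymT T) {a b : Fin N → k}
    (hL : Line B T a b) (i j : Fin N) (hab : a i * b j - a j * b i ≠ 0)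
    (P Q : Fin N → RatFunc k)
    (hP1 : bil B (pt a b RatFunc.X) P = 0)
    (hP2 : tri T (pt a b RatFunc.X) (pt a b RatFunc.X) P = 0)
    (hP3 : bil B (cst _ b) P ≠ 0)
    (hP4 : Om B T (pt a b RatFunc.X) (cst _ b) P ≠ 0)
    (hQ1 : bil B (pt a b RatFunc.X) Q = 0)
    (hQ2 : tri T (pt a b RatFunc.X) (pt a b RatFunc.X) Q = 0)
    (hQ3 : bil B (cst _ b) Q = 0)
    (hQ4 : ∀ α β : RatFunc k, Q ≠ α • cst _ a + β • cst _ b) : ContRat B T := by
  have hx : (fun i => upA k (pt a b RatFunc.X i)) = pt a b (tt k) := by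
    rw [pt_map, upA_X]
  have hb : (fun i => upA k (cst (RatFunc k) b i)) = cst (KK k) b := cst_map _ _
  set x : Fin N → KK k := pt a b (tt k) with hxdef
  set u : Fin N → KK k := uu P Q with hu
  have hxu : bil B x u = 0 := by
    rw [hu, uu, bil_add2, bil_smul2, ← hx, bil_map, bil_map, hP1, hQ1]
    simp
  have hxxu : tri T x x u = 0 := by
    rw [hu, uu, tri_add3, tri_smul3, ← hx, tri_map, tri_map, hP2, hQ2]
    simp
  have hbu : bil B (cst _ b) u ≠ 0 := by
    rw [hu, uu, bil_add2, bil_smul2, ← hb, bil_map, bil_map, hQ3, map_zero, mul_zero, add_zero]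
    intro h
    exact hP3 (upA_inj (by rw [h, map_zero]))
  have hOm : Om B T x (cst _ b) u ≠ 0 := Om_uu B T a b P Q hP4
  have hbb : bil B (cst (KK k) b) (cst (KK k) b) = 0 := by rw [bil_cst, hL.b2, map_zero]
  have hxb : bil B x (cst _ b) = 0 := bil_xb hL _
  have hxx : bil B x x = 0 := bil_xx hB hL _
  set y : Fin N → KK k := yy B T x (cst _ b) u with hy
  set A : KK k := tri T (vv B (cst _ b) u) (vv B (cst _ b) u) (vv B (cst _ b) u) with hA
  set Cc : KK k := 3 * tri T x (vv B (cst _ b) u) (vv B (cst _ b) u) * bil B u u with hC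
  set D : KK k := 6 * tri T x (vv B (cst _ b) u) (vv B (cst _ b) u) * bil B (cst _ b) u with hD
  have hyE : y = A • x - Cc • cst _ b + D • u := yy_eq x (cst _ b) u
  have h2K : (2 : KK k) ≠ 0 := by
    have := (_root_.map_ne_zero (algebraMap k (KK k))).2 h2
    rwa [map_ofNat] at this
  have h3K : (3 : KK k) ≠ 0 := by
    have := (_root_.map_ne_zero (algebraMap k (KK k))).2 h3
    rwa [map_ofNat] at this
  have hD0 : D ≠ 0 := by
    rw [hD, tri_x_vv_vv hT (tri_xbb hL _)]
    have e : (6 : KK k) * (4 * bil B (cst _ b) u * Om B T x (cst _ b) u) * bil B (cst _ b) u =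
        2 * 3 * (2 * 2 * bil B (cst _ b) u * Om B T x (cst _ b) u) * bil B (cst _ b) u := by
      ring
    rw [e]
    exact mul_ne_zero (mul_ne_zero (mul_ne_zero h2K h3K)
      (mul_ne_zero (mul_ne_zero (mul_ne_zero h2K h2K) hbu) hOm)) hbu
  have hby : bil B (cst _ b) y = D * bil B (cst _ b) u := by
    rw [hyE, bil_add2, bil_sub2, bil_smul2, bil_smul2, bil_smul2, hbb, bil_symm hB _ x, hxb]
    ring
  have hby0 : bil B (cst _ b) y ≠ 0 := by
    rw [hby]
    exact mul_ne_zero hD0 hbu
  have hxy : bil B x y = 0 := by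
    rw [hyE, bil_add2, bil_sub2, bil_smul2, bil_smul2, bil_smul2, hxb, hxx, hxu]
    ring
  obtain ⟨i0, hi0⟩ : ∃ i0, y i0 ≠ 0 := by
    by_contra hcon
    push Not at hcon
    apply hby0
    have : y = 0 := funext hcon
    rw [this, bil_zero2]
  refine ⟨y, bil_y_y hB hxx hxb hbb hxu, tri_y_y_y hT (tri_xxx hT hL _) (tri_xxb hT hL _) hxxu,
    i0, hi0, ?_⟩
  set L := IntermediateField.adjoin k (Set.range fun j => y j / y i0) with hLdef
  have ht : tt k ∈ L := by
    have e : tt k = -((bil B (cst _ a) y / y i0) / (bil B (cst _ b) y / y i0)) := by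
      rw [div_div_div_cancel_right₀ hi0, ← neg_div, eq_div_iff hby0]
      have e1 : bil B (cst _ a) y + tt k * bil B (cst _ b) y = 0 := by
        rw [hxdef, pt, bil_add1, bil_smul1] at hxy
        exact hxy
      linear_combination e1
    rw [e]
    exact neg_mem (div_mem (bil_mem B y i0 hi0 a) (bil_mem B y i0 hi0 b))
  have hdl : ∀ l, dl a b i j y l =
      D * (upA k (dl a b i j P l) + ss k * upA k (dl a b i j Q l)) := by
    intro l
    have e1 : dl a b i j y = D • dl a b i j u := by
      have e2 : A • x - Cc • cst (KK k) b + D • u =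
          A • x + (-Cc) • cst (KK k) b + D • u := by
        rw [neg_smul, sub_eq_add_neg]
      rw [hyE, e2, dl_add, dl_add, dl_smul, dl_smul, dl_smul, dl_b, hxdef, dl_pt]
      simp
    rw [e1, hu, uu, dl_add, dl_smul, Pi.smul_apply, Pi.add_apply, Pi.smul_apply, smul_eq_mul,
      smul_eq_mul, dl_map, dl_map]
  -- a minor which does not vanish
  obtain ⟨l, m, hlm⟩ : ∃ l m, dl a b i j P l * dl a b i j Q m ≠
      dl a b i j P m * dl a b i j Q l := by
    by_contra hcon
    push Not at hcon
    have hΔ : (algebraMap k (RatFunc k) (a i * b j - a j * b i)) ≠ 0 :=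
      (_root_.map_ne_zero _).2 hab
    obtain ⟨m, hm⟩ : ∃ m, dl a b i j Q m ≠ 0 := by
      by_contra hcon2
      push Not at hcon2
      set Δ := algebraMap k (RatFunc k) (a i * b j - a j * b i) with hΔd
      apply hQ4 (Δ⁻¹ * (algebraMap k _ (b j) * Q i - algebraMap k _ (b i) * Q j))
        (Δ⁻¹ * (algebraMap k _ (a i) * Q j - algebraMap k _ (a j) * Q i))
      funext l
      have h := hcon2 l
      simp only [dl, Pi.sub_apply, Pi.smul_apply, smul_eq_mul] at h
      rw [← hΔd] at h
      simp only [Pi.add_apply, Pi.smul_apply, smul_eq_mul]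
      field_simp
      linear_combination h
    -- then `dl P = c dl Q`
    apply hP3
    set Δ := algebraMap k (RatFunc k) (a i * b j - a j * b i) with hΔd
    set c := dl a b i j P m / dl a b i j Q m with hc
    have e1 : dl a b i j (P - c • Q) = 0 := by
      have e2 : P - c • Q = P + (-c) • Q := by rw [neg_smul, sub_eq_add_neg]
      rw [e2, dl_add, dl_smul]
      funext l
      rw [Pi.add_apply, Pi.smul_apply, smul_eq_mul, Pi.zero_apply, hc]
      field_simp
      linear_combination hcon l m
    have e3 : Δ • (P - c • Q) =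
        (algebraMap k _ (b j) * (P - c • Q) i - algebraMap k _ (b i) * (P - c • Q) j) •
          cst (RatFunc k) a +
        (algebraMap k _ (a i) * (P - c • Q) j - algebraMap k _ (a j) * (P - c • Q) i) •
          cst (RatFunc k) b := by
      have := e1
      rw [dl, sub_eq_zero, sub_eq_iff_eq_add] at this
      rw [this, add_comm]
    have e4 : Δ * bil B (cst _ b) (P - c • Q) = 0 := by
      rw [← bil_smul2, e3, bil_add2, bil_smul2, bil_smul2, bil_cst, bil_cst, hL.b2,
        bil_symm hB b a, hL.b1]
      simp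
    rw [bil_sub2, bil_smul2, hQ3, mul_zero, sub_zero] at e4
    exact (mul_eq_zero.1 e4).resolve_left hΔ
  have hup : ∀ z : RatFunc k, upA k z ∈ L := upA_mem L ht
  have hl := dl_mem a b i j y i0 hi0 l
  have hm := dl_mem a b i j y i0 hi0 m
  rw [← hLdef] at hl hm
  refine gen_top L ?_ ht
  -- `s` from the two functionals
  set p1 := upA k (dl a b i j P l) with hp1
  set q1 := upA k (dl a b i j Q l) with hq1
  set p2 := upA k (dl a b i j P m) with hp2
  set q2 := upA k (dl a b i j Q m) with hq2
  have hne : p1 * q2 ≠ p2 * q1 := by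
    rw [hp1, hq2, hp2, hq1, ← map_mul, ← map_mul]
    exact fun h => hlm (upA_inj h)
  set r1 := dl a b i j y l / y i0 with hr1
  set r2 := dl a b i j y m / y i0 with hr2
  have hr1e : r1 * y i0 = D * (p1 + ss k * q1) := by
    rw [hr1, div_mul_cancel₀ _ hi0, hdl l]
  have hr2e : r2 * y i0 = D * (p2 + ss k * q2) := by
    rw [hr2, div_mul_cancel₀ _ hi0, hdl m]
  -- `r1 (p2 + s q2) = r2 (p1 + s q1)`
  have key : r1 * (p2 + ss k * q2) = r2 * (p1 + ss k * q1) := by
    have h : D * y i0 * (r1 * (p2 + ss k * q2)) = D * y i0 * (r2 * (p1 + ss k * q1)) := by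
      linear_combination (D * (p2 + ss k * q2)) * hr1e - (D * (p1 + ss k * q1)) * hr2e
    exact mul_left_cancel₀ (mul_ne_zero hD0 hi0) h
  have hden : r1 * q2 - r2 * q1 ≠ 0 := by
    intro h0
    have e1 : r1 * p2 = r2 * p1 := by linear_combination key - ss k * h0
    -- then both vanish
    have e2 : r1 = 0 := by
      have : r1 * (p1 * q2 - p2 * q1) = 0 := by linear_combination p1 * h0 - q1 * e1
      exact (mul_eq_zero.1 this).resolve_right (sub_ne_zero.2 hne)
    have e3 : r2 = 0 := by
      have : r2 * (p1 * q2 - p2 * q1) = 0 := by linear_combination p2 * h0 - q2 * e1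
      exact (mul_eq_zero.1 this).resolve_right (sub_ne_zero.2 hne)
    rw [e2, zero_mul] at hr1e
    rw [e3, zero_mul] at hr2e
    have f1 : p1 + ss k * q1 = 0 := (mul_eq_zero.1 hr1e.symm).resolve_left hD0
    have f2 : p2 + ss k * q2 = 0 := (mul_eq_zero.1 hr2e.symm).resolve_left hD0
    apply hne
    linear_combination q2 * f1 - q1 * f2
  have hs : ss k = (r2 * p1 - r1 * p2) / (r1 * q2 - r2 * q1) := by
    rw [eq_div_iff hden]
    linear_combination key
  rw [hs]
  exact div_mem (sub_mem (mul_mem hm (hup _)) (mul_mem hl (hup _)))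
    (sub_mem (mul_mem hl (hup _)) (mul_mem hm (hup _)))

end Pool.Agent.Helper97.QF
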