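import Pool.Agent.Helper97.QF.Easy4
import Pool.Agent.Helper97.QF.Line22
import Pool.Agent.Helper97.QF.Main
import Pool.Agent.Helper66.QL.Main

/-!
# QF: the types (), (2), (3), (4), (2,2), (2,3)
-/

set_option autoImplicit false

namespace Pool.Agent.Helper97.QF

open MvPolynomial

universe u

variable {k : Type u} [Field k] {n r : ℕ}

/-- the form of the Jacobian criterion which is used -/
theorem SmoothCI.coef {f : Fin r → MvPolynomial (Fin (n + 1)) k} (hS : SmoothCI f)
    {x : Fin (n + 1) → k} (hx : x ≠ 0) (hf : ∀ l, eval x (f l) = 0) (c : Fin r → k)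
    (hc : ∀ i, ∑ l, c l * eval x (pderiv i (f l)) = 0) : ∀ l, c l = 0 := by
  refine Fintype.linearIndependent_iff.1 (hS x hx hf) c ?_
  funext i
  rw [Finset.sum_apply]
  exact hc i

/-- the order of the equations does not matter -/
theorem SmoothCI.perm {f : Fin r → MvPolynomial (Fin (n + 1)) k} (hS : SmoothCI f)
    (e : Equiv.Perm (Fin r)) : SmoothCI (fun l => f (e l)) := by
  intro x hx hf
  have h := hS x hx (fun l => by
    have := hf (e.symm l)
    dsimp only at this
    rwa [e.apply_symm_apply] at this)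
  exact h.comp e e.injective

theorem RatSurf.perm {f : Fin r → MvPolynomial (Fin (n + 1)) k} (e : Equiv.Perm (Fin r))
    (h : RatSurf (fun l => f (e l))) : RatSurf f := by
  obtain ⟨y, hy, hrest⟩ := h
  refine ⟨y, fun l => ?_, hrest⟩
  have := hy (e.symm l)
  dsimp only at this
  rwa [e.apply_symm_apply] at this

theorem aeval_self (x : Fin (n + 1) → k) (F : MvPolynomial (Fin (n + 1)) k) :
    aeval x F = eval x F := congrFun (aeval_eq_eval x) _

/-- projective space -/
theorem type_0 (hn : 3 ≤ n) (f : Fin 0 → MvPolynomial (Fin (n + 1)) k) : RatSurf f := by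
  obtain ⟨y, hy⟩ := rat_0 (k := k) (N := n + 1) (by omega)
  exact ⟨y, fun l => l.elim0, hy⟩

/-- quadrics -/
theorem type_2 [IsAlgClosed k] (h2 : (2 : k) ≠ 0) (hn : 4 ≤ n)
    (f : Fin 1 → MvPolynomial (Fin (n + 1)) k) (hf : (f 0).IsHomogeneous 2) (hS : SmoothCI f) :
    RatSurf f := by
  obtain ⟨y, hy, hrest⟩ := rat_2 h2 (by omega) (symB_polB (f 0)) (fun x hx hxx => by
    by_contra hcon
    push Not at hcon
    have h0 : eval x (f 0) = 0 := by
      rw [← aeval_self, aeval_polB h2 _ hf, hxx]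
    have := hS.coef hx (fun l => by rw [Subsingleton.elim l 0, h0]) (fun _ => 1) (fun i => by
      rw [Fin.sum_univ_one, eval_pderiv_polB h2 _ hf, hcon]
      ring) 0
    exact one_ne_zero this)
  refine ⟨y, fun l => ?_, hrest⟩
  rw [Subsingleton.elim l 0, aeval_polB h2 _ hf, hy]

/-- cubics -/
theorem type_3 [IsAlgClosed k] (h2 : (2 : k) ≠ 0) (h3 : (3 : k) ≠ 0) (hn : 4 ≤ n)
    (f : Fin 1 → MvPolynomial (Fin (n + 1)) k) (hf : (f 0).IsHomogeneous 3) (hS : SmoothCI f) :
    RatSurf f := by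
  obtain ⟨y, hy, hrest⟩ := rat_3 h2 h3 (by omega) (symT_polC (f 0)) (fun x hx hxx => by
    by_contra hcon
    push Not at hcon
    have h0 : eval x (f 0) = 0 := by
      rw [← aeval_self, aeval_polC h2 h3 _ hf, hxx]
    have := hS.coef hx (fun l => by rw [Subsingleton.elim l 0, h0]) (fun _ => 1) (fun i => by
      rw [Fin.sum_univ_one, eval_pderiv_polC h2 h3 _ hf, hcon]
      ring) 0
    exact one_ne_zero this)
  refine ⟨y, fun l => ?_, hrest⟩
  rw [Subsingleton.elim l 0, aeval_polC h2 h3 _ hf, hy]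

/-- quartics -/
theorem type_4 [IsAlgClosed k] (h2 : (2 : k) ≠ 0) (h3 : (3 : k) ≠ 0) (hn : 4 ≤ n)
    (f : Fin 1 → MvPolynomial (Fin (n + 1)) k) (hf : (f 0).IsHomogeneous 4) (hS : SmoothCI f) :
    RatSurf f := by
  have hT := Pool.Agent.Helper72.QT.symT_polT (f 0)
  have hSmo := Pool.Agent.Helper72.QT.smo_polT h2 h3 (f 0) hf (fun x hx h0 => by
    by_contra hcon
    push Not at hcon
    have := hS.coef hx (fun l => by rw [Subsingleton.elim l 0, h0]) (fun _ => 1) (fun i => by
      rw [Fin.sum_univ_one, hcon i]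
      ring) 0
    exact one_ne_zero this)
  have h4 := Pool.Agent.Helper66.QL.rat_tensor h2 h3 hT hSmo (by omega)
  obtain ⟨e⟩ := Pool.Agent.Helper72.QT.exists_equiv (k := k)
  obtain ⟨y, hy, hrest⟩ := Pool.Agent.Helper72.QT.transfer_rat e h4
  refine ⟨y, fun l => ?_, hrest⟩
  rw [Subsingleton.elim l 0, Pool.Agent.Helper72.QT.aeval_polT h2 h3 _ hf, hy]

/-- intersections of two quadrics -/
theorem type_22 [IsAlgClosed k] (h2 : (2 : k) ≠ 0) (hn : 5 ≤ n)
    (f : Fin 2 → MvPolynomial (Fin (n + 1)) k) (hf : ∀ l, (f l).IsHomogeneous 2)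
    (hS : SmoothCI f) : RatSurf f := by
  obtain ⟨a, b, hI, hl⟩ := line_22 hn f hf
  have hB := fun l => symB_polB (f l)
  have hq : ∀ (l : Fin 2) (s t : k), s ^ 2 * bil (polB (f l)) a a +
      2 * s * t * bil (polB (f l)) a b + t ^ 2 * bil (polB (f l)) b b = 0 := by
    intro l s t
    have e := aeval_polB h2 (f l) (hf l) (s • a + t • b)
    rw [aeval_self, hl l s t] at e
    simp only [bil_add1, bil_add2, bil_smul1, bil_smul2, bil_symm (hB l) b a] at e
    linear_combination -e
  have haa : ∀ l, bil (polB (f l)) a a = 0 := fun l => by linear_combination hq l 1 0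
  have hbb : ∀ l, bil (polB (f l)) b b = 0 := fun l => by linear_combination hq l 0 1
  have hab : ∀ l, bil (polB (f l)) a b = 0 := fun l => by
    have e : 2 * bil (polB (f l)) a b = 0 := by
      linear_combination hq l 1 1 - haa l - hbb l
    exact (mul_eq_zero.1 e).resolve_left h2
  have hSm : Smo22 (polB (f 0)) (polB (f 1)) := by
    intro x hx hx1 hx2 α β hv
    have h0 : ∀ l, eval x (f l) = 0 := by
      intro l
      rw [← aeval_self, aeval_polB h2 _ (hf l)]
      fin_cases l
      · exact hx1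
      · exact hx2
    have := hS.coef hx h0 ![α, β] (fun i => by
      rw [Fin.sum_univ_two]
      simp only [Matrix.cons_val_zero, Matrix.cons_val_one]
      rw [eval_pderiv_polB h2 _ (hf 0), eval_pderiv_polB h2 _ (hf 1)]
      linear_combination 2 * hv (Pi.single i 1))
    exact ⟨this 0, this 1⟩
  obtain ⟨y, hy1, hy2, hrest⟩ := rat_22 h2 (by omega) (hB 0) (hB 1) hSm hI (haa 0) (haa 1) (hbb 0)
    (hbb 1) (hab 0) (hab 1)
  refine ⟨y, fun l => ?_, hrest⟩
  rw [aeval_polB h2 _ (hf l)]
  fin_cases l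
  · exact hy1
  · exact hy2

/-- intersections of a quadric and a cubic -/
theorem type_23 [IsAlgClosed k] (h2 : (2 : k) ≠ 0) (h3 : (3 : k) ≠ 0) (hn : 5 ≤ n)
    (f : Fin 2 → MvPolynomial (Fin (n + 1)) k) (hf0 : (f 0).IsHomogeneous 2)
    (hf1 : (f 1).IsHomogeneous 3) (hS : SmoothCI f) : RatSurf f := by
  obtain ⟨y, hy1, hy2, hrest⟩ := rat_23 k h2 h3 hn (f 0) (f 1) hf0 hf1 (fun x hx hx0 hx1 => by
    have h := hS x hx (fun l => by
      fin_cases l
      · exact hx0
      · exact hx1)
    have e : (fun l => fun i => eval x (pderiv i (f l))) =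
        ![fun i => eval x (pderiv i (f 0)), fun i => eval x (pderiv i (f 1))] := by
      funext l
      fin_cases l <;> rfl
    rwa [e] at h)
  refine ⟨y, fun l => ?_, hrest⟩
  fin_cases l
  · exact hy1
  · exact hy2

end Pool.Agent.Helper97.QF
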